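import Mathlib

set_option autoImplicit false

open Set Cardinal

universe u

namespace Pool.Agent.Lib.MP_8829b8_gt

/-- bound used in the finite pigeonhole lemma -/
def NN : ℕ → ℕ
  | 0 => 1
  | (k + 1) => 1 + (k + 1) * NN k

/-- Among more than `NN k` indices with finite code sets of size at most `k` there are two that are
not separated by a common code. -/
theorem compat {A : Type u} (a : ℕ → A) (k : ℕ) :
    ∀ (s : Finset ℕ) (q : ℕ → Finset (Set A)), (∀ i ∈ s, (q i).card ≤ k) → NN k < s.card →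
      ∃ i ∈ s, ∃ j ∈ s, i ≠ j ∧ ∀ S ∈ q i, S ∈ q j → (a i ∈ S ↔ a j ∈ S) := by
  classical
  induction k with
  | zero =>
    intro s q hq hs
    have h1 : 1 < s.card := hs
    obtain ⟨i, hi, j, hj, hij⟩ := Finset.one_lt_card.1 h1
    refine ⟨i, hi, j, hj, hij, ?_⟩
    intro S hS
    have := hq i hi
    simp only [nonpos_iff_eq_zero, Finset.card_eq_zero] at this
    rw [this] at hS
    simp at hS
  | succ k ih =>
    intro s q hq hs
    by_contra hcon
    push Not at hcon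
    have hne : s.Nonempty := by
      rw [← Finset.card_pos]; omega
    obtain ⟨i0, hi0⟩ := hne
    have key : ∀ i ∈ s.erase i0, ∃ S ∈ q i0, S ∈ q i ∧ ¬ (a i0 ∈ S ↔ a i ∈ S) := by
      intro i hi
      have h2 := hcon i0 hi0 i (Finset.mem_of_mem_erase hi) (Finset.ne_of_mem_erase hi).symm
      obtain ⟨S, hS1, hS2, hS3⟩ := h2
      refine ⟨S, hS1, hS2, ?_⟩
      tauto
    choose! g hg1 hg2 hg3 using key
    have hcard : (q i0).card * NN k < (s.erase i0).card := by
      rw [Finset.card_erase_of_mem hi0]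
      have h3 : (q i0).card ≤ k + 1 := hq i0 hi0
      have h4 : (q i0).card * NN k ≤ (k + 1) * NN k := Nat.mul_le_mul_right _ h3
      have h5 : NN (k + 1) = 1 + (k + 1) * NN k := rfl
      omega
    obtain ⟨S, hS, hS2⟩ := Finset.exists_lt_card_fiber_of_mul_lt_card_of_maps_to hg1 hcard
    set s' := (s.erase i0).filter (fun x => g x = S) with hs'
    have hmem : ∀ i ∈ s', i ∈ s ∧ S ∈ q i ∧ ¬ (a i0 ∈ S ↔ a i ∈ S) := by
      intro i hi
      rw [hs', Finset.mem_filter] at hi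
      have h6 := hg2 i hi.1
      have h7 := hg3 i hi.1
      rw [hi.2] at h6 h7
      exact ⟨Finset.mem_of_mem_erase hi.1, h6, h7⟩
    obtain ⟨i, hi, j, hj, hij, hc⟩ := ih s' (fun i => (q i).erase S) (by
      intro i hi
      have := hq i (hmem i hi).1
      rw [Finset.card_erase_of_mem (hmem i hi).2.1]
      omega) hS2
    obtain ⟨S', hS'1, hS'2, hS'3⟩ := hcon i (hmem i hi).1 j (hmem j hj).1 hij
    by_cases hSS : S' = S
    · subst hSS
      have h8 := (hmem i hi).2.2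
      have h9 := (hmem j hj).2.2
      tauto
    · have := hc S' (Finset.mem_erase.2 ⟨hSS, hS'1⟩) (Finset.mem_erase.2 ⟨hSS, hS'2⟩)
      tauto

/-- building a fast increasing sequence with prescribed memberships -/
theorem fast_seq {A : Type u} [LinearOrder A] (S : ℕ → Set A) (hS : ∀ n x, ∃ y ∈ S n, x < y)
    (g : A → A) [Nonempty A] : ∃ b : ℕ → A, (∀ n, b n ∈ S n) ∧ ∀ m n, m < n → b m < b n ∧ g (b m) < b n := by
  classical
  choose F hF1 hF2 using hS
  let x0 : A := Classical.arbitrary A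
  let st : ℕ → A × A := fun n => Nat.rec (F 0 x0, max (F 0 x0) (g (F 0 x0)))
    (fun n p => (F (n + 1) p.2, max p.2 (max (F (n + 1) p.2) (g (F (n + 1) p.2))))) n
  have hst0 : st 0 = (F 0 x0, max (F 0 x0) (g (F 0 x0))) := rfl
  have hst : ∀ n, st (n + 1) = (F (n + 1) (st n).2,
      max (st n).2 (max (F (n + 1) (st n).2) (g (F (n + 1) (st n).2)))) := fun n => rfl
  refine ⟨fun n => (st n).1, ?_, ?_⟩
  · intro n
    cases n with
    | zero => show (st 0).1 ∈ S 0; rw [hst0]; exact hF1 _ _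
    | succ n => show (st (n + 1)).1 ∈ S (n + 1); rw [hst]; exact hF1 _ _
  · have hmono : Monotone (fun n => (st n).2) := by
      apply monotone_nat_of_le_succ
      intro n
      show (st n).2 ≤ (st (n + 1)).2
      rw [hst]
      exact le_max_left _ _
    have h1 : ∀ n, (st n).1 ≤ (st n).2 ∧ g (st n).1 ≤ (st n).2 := by
      intro n
      cases n with
      | zero => rw [hst0]; exact ⟨le_max_left _ _, le_max_right _ _⟩
      | succ n =>
        rw [hst]
        exact ⟨le_trans (le_max_left _ _) (le_max_right _ _),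
          le_trans (le_max_right _ _) (le_max_right _ _)⟩
    intro m n hmn
    obtain ⟨k, rfl⟩ : ∃ k, n = k + 1 := ⟨n - 1, by omega⟩
    have h2 : (st k).2 < (st (k + 1)).1 := by
      rw [hst]; exact hF2 _ _
    have h3 : (st m).2 ≤ (st k).2 := hmono (by omega)
    exact ⟨lt_of_le_of_lt ((h1 m).1.trans h3) h2, lt_of_le_of_lt ((h1 m).2.trans h3) h2⟩

/-- a set of cardinality larger than aleph one -/
def Large {A : Type u} (S : Set A) : Prop := ℵ_ 1 < #S

theorem large_pig {A C : Type u} (S : Set A) (hS : Large S) (g : A → C) (hC : #C ≤ ℵ_ 1) :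
    ∃ c, Large {a | a ∈ S ∧ g a = c} := by
  by_contra hcon
  push Not at hcon
  have h1 : S = ⋃ c, {a | a ∈ S ∧ g a = c} := by
    ext x; simp
  have h2 : #S ≤ ℵ_ 1 := by
    rw [h1]
    refine (Cardinal.mk_iUnion_le _).trans ?_
    have h3 : (⨆ c, #{a | a ∈ S ∧ g a = c}) ≤ ℵ_ 1 := by
      apply ciSup_le'
      intro c
      exact not_lt.1 (hcon c)
    calc #C * ⨆ c, #{a | a ∈ S ∧ g a = c} ≤ ℵ_ 1 * ℵ_ 1 := mul_le_mul' hC h3
      _ = ℵ_ 1 := Cardinal.mul_eq_self (Cardinal.aleph0_le_aleph 1)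
  exact absurd hS (not_lt.2 h2)

theorem large_unbdd {A : Type u} [LinearOrder A] (hA : ∀ x : A, #(Iic x) ≤ ℵ_ 1) {S : Set A}
    (hS : Large S) (x : A) : ∃ y ∈ S, x < y := by
  by_contra hcon
  push Not at hcon
  have h1 : S ⊆ Iic x := fun y hy => hcon y hy
  exact absurd hS (not_lt.2 ((Cardinal.mk_le_mk_of_subset h1).trans (hA x)))

theorem large_split {A B : Type u} [Nonempty B] (hB : #B ≤ ℵ_ 1) (S : Set A) (hS : Large S) :
    ∃ j : A → B, ∀ ε, Large {a | a ∈ S ∧ j a = ε} := by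
  classical
  have h0 : ℵ₀ ≤ #S := (Cardinal.aleph0_le_aleph 1).trans hS.le
  have h1 : #S = #(S × B) := by
    rw [Cardinal.mk_prod, Cardinal.lift_id, Cardinal.lift_id]
    rw [Cardinal.mul_eq_left h0 (hB.trans hS.le) (Cardinal.mk_ne_zero B)]
  obtain ⟨e⟩ := Cardinal.eq.1 h1
  refine ⟨fun a => if h : a ∈ S then (e ⟨a, h⟩).2 else Classical.arbitrary B, fun ε => ?_⟩
  refine lt_of_lt_of_le hS ?_
  refine ⟨⟨fun x => ⟨(e.symm (x, ε)).1, (e.symm (x, ε)).2, ?_⟩, ?_⟩⟩
  · show (if h : ((e.symm (x, ε)) : A) ∈ S then (e ⟨(e.symm (x, ε)).1, h⟩).2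
      else Classical.arbitrary B) = ε
    rw [dif_pos (e.symm (x, ε)).2]
    simp
  · intro x y hxy
    have h2 : (e.symm (x, ε)).1 = (e.symm (y, ε)).1 := by
      simpa using hxy
    have h3 : e.symm (x, ε) = e.symm (y, ε) := Subtype.ext h2
    have h4 := e.symm.injective h3
    exact (Prod.mk.inj h4).1

/-- the tails used in the auxiliary spaces -/
def FF {A B : Type u} [LinearOrder A] [LinearOrder B] (j : A → B) (a : A) : Set (A × B) :=
  {d | a < d.1 ∧ j a < d.2}

theorem core {A B : Type u} [LinearOrder A] [LinearOrder B] [Nonempty A] [Nonempty B]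
    (hA : ∀ x : A, #(Iic x) ≤ ℵ_ 1) (hA2 : ℵ_ 1 < #A)
    (hB : ∀ x : B, (Iic x).Countable) (hB2 : ¬ (univ : Set B).Countable) (hB3 : #B ≤ ℵ_ 1)
    (al : A → A) (xi : A → B) :
    ∃ z : B, ∃ j : A → B, ∀ (q : A → Finset (Set A)) (f : A → Finset (A × B)),
      ∃ a b, a < b ∧ al a < b ∧ xi a < z ∧ (∀ S ∈ q a, S ∈ q b → (a ∈ S ↔ b ∈ S)) ∧
        (∀ d ∈ f a, d ∉ FF j b) ∧ (∀ d ∈ f b, d ∉ FF j a) := by
  classical
  have hAl : Large (univ : Set A) := by
    unfold Large; rw [Cardinal.mk_univ]; exact hA2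
  have hBu : ∀ (E : Set B), ¬ E.Countable → ∀ x, ∃ y ∈ E, x < y := by
    intro E hE x
    by_contra hcon
    push Not at hcon
    exact hE ((hB x).mono (fun y hy => hcon y hy))
  obtain ⟨x0, hx0⟩ := large_pig univ hAl xi hB3
  obtain ⟨z, -, hz⟩ := hBu univ hB2 x0
  set A0 := {a | a ∈ (univ : Set A) ∧ xi a = x0} with hA0
  obtain ⟨j, hj⟩ := large_split (B := B) hB3 A0 hx0
  refine ⟨z, j, fun q f => ?_⟩
  have hm : ∀ a, ∃ m : B, ∀ d ∈ f a, d.2 ≤ m := by
    intro a
    obtain ⟨M, hM⟩ := ((f a).image Prod.snd).exists_le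
    exact ⟨M, fun d hd => hM _ (Finset.mem_image_of_mem _ hd)⟩
  have hl : ∀ a, ∃ l : A, ∀ d ∈ f a, d.1 ≤ l := by
    intro a
    obtain ⟨M, hM⟩ := ((f a).image Prod.fst).exists_le
    exact ⟨M, fun d hd => hM _ (Finset.mem_image_of_mem _ hd)⟩
  choose m hm using hm
  choose l hl using hl
  have huni : ∀ ε, ∃ (mm : B) (kk : ℕ), Large {a | a ∈ A0 ∧ j a = ε ∧ m a = mm ∧ (q a).card = kk} := by
    intro ε
    obtain ⟨c, hc⟩ := large_pig {a | a ∈ A0 ∧ j a = ε} (hj ε)
      (fun a => (m a, (ULift.up (q a).card : ULift.{u} ℕ))) (by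
        rw [Cardinal.mk_prod, Cardinal.lift_id, Cardinal.lift_id]
        have h1 : #(ULift.{u} ℕ) ≤ ℵ_ 1 := by
          simpa using Cardinal.aleph0_le_aleph 1
        calc #B * #(ULift.{u} ℕ) ≤ ℵ_ 1 * ℵ_ 1 := mul_le_mul' hB3 h1
          _ = ℵ_ 1 := Cardinal.mul_eq_self (Cardinal.aleph0_le_aleph 1))
    refine ⟨c.1, c.2.down, ?_⟩
    have h2 : {a | a ∈ A0 ∧ j a = ε ∧ m a = c.1 ∧ (q a).card = c.2.down} =
        {a | a ∈ {a | a ∈ A0 ∧ j a = ε} ∧ (m a, (ULift.up (q a).card : ULift.{u} ℕ)) = c} := by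
      ext x
      simp only [mem_setOf_eq]
      constructor
      · rintro ⟨h1, h2, h3, h4⟩
        refine ⟨⟨h1, h2⟩, ?_⟩
        ext
        · exact h3
        · exact h4
      · rintro ⟨⟨h1, h2⟩, h3⟩
        refine ⟨h1, h2, ?_, ?_⟩
        · rw [← h3]
        · rw [← h3]
    rw [h2]; exact hc
  choose mm kk hmk using huni
  obtain ⟨k, hk⟩ : ∃ k : ℕ, ¬ {ε | kk ε = k}.Countable := by
    by_contra hcon
    push Not at hcon
    apply hB2
    have h1 : (univ : Set B) = ⋃ k : ℕ, {ε | kk ε = k} := by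
      ext x; simp
    rw [h1]
    exact countable_iUnion hcon
  obtain ⟨e, he1, he2⟩ := fast_seq (fun _ => {ε | kk ε = k}) (fun _ => hBu _ hk) mm
  let n := NN k
  obtain ⟨b, hb1, hb2⟩ := fast_seq (fun t => {a | a ∈ A0 ∧ j a = e (n - t) ∧ m a = mm (e (n - t)) ∧
    (q a).card = kk (e (n - t))}) (fun t => large_unbdd hA (hmk _)) (fun a => max (al a) (l a))
  obtain ⟨i, hi, i', hi', hne, hc⟩ := compat b k (Finset.range (n + 1)) (fun t => q (b t)) (by
    intro t _
    show (q (b t)).card ≤ k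
    rw [(hb1 t).2.2.2]
    exact (he1 _).le) (by simp [n])
  wlog hlt : i < i' generalizing i i' with H
  · refine H i' hi' i hi hne.symm ?_ (by omega)
    intro S h1 h2
    exact (hc S h2 h1).symm
  · rw [Finset.mem_range] at hi hi'
    have h1 := hb2 i i' hlt
    have h2 : n - i' < n - i := by omega
    have h3 := he2 _ _ h2
    refine ⟨b i, b i', h1.1, lt_of_le_of_lt (le_max_left _ _) h1.2, ?_, hc, ?_, ?_⟩
    · rw [(hb1 i).1.2]; exact hz
    · intro d hd hd2
      have h4 := hl _ d hd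
      have h5 : l (b i) < b i' := lt_of_le_of_lt (le_max_right _ _) h1.2
      exact absurd (hd2.1) (not_lt.2 (h4.trans h5.le))
    · intro d hd hd2
      have h4 := hm _ d hd
      rw [(hb1 i').2.2.1] at h4
      have h5 := hd2.2
      rw [(hb1 i).2.1] at h5
      exact absurd h5 (not_lt.2 (h4.trans h3.2.le))

end Pool.Agent.Lib.MP_8829b8_gt
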