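import Pool.Agent.Lib.MP_8829b8_gt.Normal

set_option autoImplicit false

open Set Cardinal Topology

universe u

namespace Pool.Agent.Lib.MP_8829b8_gt

/-- disjoint sums of normal spaces are normal -/
theorem normal_sigma {ι : Type*} {E : ι → Type*} [∀ i, TopologicalSpace (E i)]
    (h : ∀ i, NormalSpace (E i)) : NormalSpace (Σ i, E i) := by
  constructor
  intro s t hs ht hst
  have h1 : ∀ i, SeparatedNhds ((Sigma.mk i : E i → Σ i, E i) ⁻¹' s)
      ((Sigma.mk i : E i → Σ i, E i) ⁻¹' t) := by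
    intro i
    apply (h i).normal
    · exact hs.preimage continuous_sigmaMk
    · exact ht.preimage continuous_sigmaMk
    · exact hst.preimage _
  choose U V hU hV hsU htV hUV using h1
  refine ⟨⋃ i, Sigma.mk i '' U i, ⋃ i, Sigma.mk i '' V i, ?_, ?_, ?_, ?_, ?_⟩
  · exact isOpen_iUnion fun i => isOpenMap_sigmaMk _ (hU i)
  · exact isOpen_iUnion fun i => isOpenMap_sigmaMk _ (hV i)
  · rintro ⟨i, x⟩ hx
    exact mem_iUnion.2 ⟨i, ⟨x, hsU i hx, rfl⟩⟩
  · rintro ⟨i, x⟩ hx
    exact mem_iUnion.2 ⟨i, ⟨x, htV i hx, rfl⟩⟩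
  · rw [disjoint_left]
    rintro x hx hx'
    obtain ⟨i, y, hy, rfl⟩ := mem_iUnion.1 hx
    obtain ⟨i', y', hy', h2⟩ := mem_iUnion.1 hx'
    obtain ⟨rfl, h3⟩ := Sigma.mk.inj_iff.1 h2
    obtain rfl := eq_of_heq h3
    exact disjoint_left.1 (hUV _) hy hy'

/-- closed images of normal spaces are normal -/
theorem normal_closed_image {E F : Type*} [TopologicalSpace E] [TopologicalSpace F]
    [NormalSpace E] (f : E → F) (hf : Continuous f) (hc : IsClosedMap f)
    (hs : Function.Surjective f) : NormalSpace F := by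
  constructor
  intro s t hs' ht' hst
  obtain ⟨U, V, hU, hV, hsU, htV, hUV⟩ := normal_separation (hs'.preimage hf) (ht'.preimage hf)
    (hst.preimage f)
  refine ⟨(f '' Uᶜ)ᶜ, (f '' Vᶜ)ᶜ, (hc _ hU.isClosed_compl).isOpen_compl,
    (hc _ hV.isClosed_compl).isOpen_compl, ?_, ?_, ?_⟩
  · rintro x hx ⟨y, hy, rfl⟩
    exact hy (hsU hx)
  · rintro x hx ⟨y, hy, rfl⟩
    exact hy (htV hx)
  · rw [disjoint_left]
    rintro x hx hx'
    obtain ⟨y, rfl⟩ := hs x
    have h1 : y ∈ U := by
      by_contra h; exact hx ⟨y, h, rfl⟩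
    have h2 : y ∈ V := by
      by_contra h; exact hx' ⟨y, h, rfl⟩
    exact disjoint_left.1 hUV h1 h2

section
variable {A B : Type u} [LinearOrder A] [LinearOrder B] [Nonempty A] [Nonempty B]

theorem isClosed_singleton_XS (x : XS A B) : IsClosed ({x} : Set (XS A B)) := by
  rw [← isOpen_compl_iff, isOpen_XS]
  intro _
  rcases x with _ | ⟨c, z⟩
  · exact ⟨Classical.arbitrary A, Classical.arbitrary B, fun c z _ _ h => by cases h⟩
  · refine ⟨c, z, fun c' z' hc _ h => ?_⟩
    have h1 : (c', z') = (c, z) := Option.some.inj h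
    have h2 := (Prod.mk.inj h1).1
    exact absurd hc (by rw [h2]; exact lt_irrefl _)

theorem isOpen_singleton_XS (d : A × B) : IsOpen ({(some d : Option (A × B))} : Set (XS A B)) := by
  rw [isOpen_XS]
  intro h
  cases h

theorem t2_XS : T2Space (XS A B) := by
  constructor
  intro x y hxy
  have key : ∀ (d : A × B) (y : XS A B), y ≠ (some d : Option (A × B)) →
      ∃ u v : Set (XS A B), IsOpen u ∧ IsOpen v ∧ (some d : Option (A × B)) ∈ u ∧ y ∈ v ∧
        Disjoint u v := by
    intro d y hy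
    refine ⟨{(some d : Option (A × B))}, {(some d : Option (A × B))}ᶜ, isOpen_singleton_XS d,
      (isClosed_singleton_XS _).isOpen_compl, rfl, hy, disjoint_compl_right⟩
  rcases x with _ | d
  · rcases y with _ | d
    · exact absurd rfl hxy
    · obtain ⟨u, v, hu, hv, h1, h2, h3⟩ := key d _ hxy
      exact ⟨v, u, hv, hu, h2, h1, h3.symm⟩
  · exact key d y (Ne.symm hxy)

theorem paracompact_XS : ParacompactSpace (XS A B) := by
  classical
  constructor
  intro α s hs hcov
  obtain ⟨a0, ha0⟩ : ∃ a, (none : Option (A × B)) ∈ s a := by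
    have : (none : Option (A × B)) ∈ ⋃ a, s a := by rw [hcov]; trivial
    exact mem_iUnion.1 this
  have hx : ∀ x : XS A B, ∃ a, x ∈ s a := by
    intro x
    have : x ∈ ⋃ a, s a := by rw [hcov]; trivial
    exact mem_iUnion.1 this
  choose g hg using hx
  let t : XS A B → Set (XS A B) := fun x =>
    if x = (none : Option (A × B)) then s a0 else {y | y = x ∧ y ∉ s a0}
  have ht0 : t (none : Option (A × B)) = s a0 := if_pos rfl
  have ht1 : ∀ d, t (some d : Option (A × B)) = {y | y = (some d : Option (A × B)) ∧ y ∉ s a0} :=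
    fun d => if_neg (by intro h; cases h)
  refine ⟨XS A B, t, ?_, ?_, ?_, ?_⟩
  · rintro (_ | d)
    · exact ht0 ▸ hs a0
    · rw [isOpen_XS]
      intro h
      have h' : (none : Option (A × B)) ∈ t (some d : Option (A × B)) := h
      rw [ht1] at h'
      cases h'.1
  · refine eq_univ_of_forall fun x => ?_
    by_cases hx : x ∈ s a0
    · exact mem_iUnion.2 ⟨(none : Option (A × B)), ht0 ▸ hx⟩
    · refine mem_iUnion.2 ⟨x, ?_⟩
      rcases x with _ | d
      · exact absurd ha0 hx
      · show _ ∈ t (some d : Option (A × B))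
        rw [ht1]; exact ⟨rfl, hx⟩
  · intro x
    by_cases hx : x ∈ s a0
    · refine ⟨s a0, (hs a0).mem_nhds hx, (Set.finite_singleton (none : Option (A × B))).subset ?_⟩
      rintro (_ | d) ⟨y, hy, hy'⟩
      · rfl
      · have h' : y ∈ t (some d : Option (A × B)) := hy
        rw [ht1] at h'
        exact absurd hy' h'.2
    · rcases x with _ | d
      · exact absurd ha0 hx
      · refine ⟨{(some d : Option (A × B))}, (isOpen_singleton_XS d).mem_nhds rfl,
          (Set.toFinite {(none : Option (A × B)), (some d : Option (A × B))}).subset ?_⟩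
        rintro (_ | d') ⟨y, hy, hy'⟩
        · exact Or.inl rfl
        · have h' : y ∈ t (some d' : Option (A × B)) := hy
          rw [ht1] at h'
          exact Or.inr (h'.1.symm.trans hy')
  · rintro (_ | d)
    · exact ⟨a0, ht0.le⟩
    · refine ⟨g (some d : Option (A × B)), ?_⟩
      intro y hy
      have h' : y ∈ t (some d : Option (A × B)) := hy
      rw [ht1] at h'
      rw [h'.1]; exact hg _

omit [Nonempty A] [Nonempty B] in
theorem VV_avoid [Infinite A] (j : A → B) (a : A) (i : II A B) : ∃ r, i ∉ VV j a r ∅ := by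
  classical
  obtain ⟨S, hS⟩ := Infinite.exists_notMem_finset (i.1.2.1 ∪ i.2.2.1)
  refine ⟨{S}, fun h => hS ?_⟩
  rcases h.2 with h' | h'
  · exact Finset.mem_union_left _ (h'.2.1 (Finset.mem_singleton_self S))
  · exact Finset.mem_union_right _ (h'.2.1 (Finset.mem_singleton_self S))

omit [Nonempty A] [Nonempty B] in
theorem t1_TS [Infinite A] (j : A → B) : T1Space (TS j) := by
  constructor
  intro t
  rw [← isOpen_compl_iff, isOpen_TS]
  intro a ha
  rcases t with b | i
  · exact ⟨∅, ∅, fun i _ h => by cases h⟩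
  · obtain ⟨r, hr⟩ := VV_avoid j a i
    refine ⟨r, ∅, fun i' hi' h => ?_⟩
    obtain rfl := Sum.inr.inj h
    exact hr hi'

omit [Nonempty A] [Nonempty B] in
theorem t1_ZS [Infinite A] : T1Space (ZS A B) := by
  constructor
  intro t
  rw [← isOpen_compl_iff, isOpen_ZS]
  intro a ha j
  rcases t with b | ⟨j', i⟩
  · exact ⟨∅, ∅, fun i _ h => by cases h⟩
  · obtain ⟨r, hr⟩ := VV_avoid j a i
    refine ⟨r, ∅, fun i' hi' h => ?_⟩
    have h1 := Sum.inr.inj h
    obtain ⟨rfl, rfl⟩ := Prod.mk.inj h1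
    exact hr hi'

/-- `X × Z` is not normal. -/
theorem not_normal_prod [Infinite A] (hA : ∀ x : A, #(Iic x) ≤ ℵ_ 1) (hA2 : ℵ_ 1 < #A)
    (hB : ∀ x : B, (Iic x).Countable) (hB2 : ¬ (univ : Set B).Countable) (hB3 : #B ≤ ℵ_ 1) :
    ¬ NormalSpace (XS A B × ZS A B) := by
  classical
  intro hN
  have := t1_ZS (A := A) (B := B)
  let H : Set (XS A B × ZS A B) := {p | p.1 = (none : Option (A × B)) ∧
    ∃ a, p.2 = (Sum.inl a : A ⊕ ((A → B) × II A B))}
  let K : Set (XS A B × ZS A B) := {p | ∃ b z, p.1 = (some (b, z) : Option (A × B)) ∧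
    p.2 = (Sum.inl b : A ⊕ ((A → B) × II A B))}
  have hH : IsClosed H := by
    have h1 : IsClosed {p : XS A B × ZS A B | p.1 = (none : Option (A × B))} :=
      (isClosed_singleton_XS (none : Option (A × B))).preimage continuous_fst
    have h2 : IsClosed {t : ZS A B | ∃ a, t = (Sum.inl a : A ⊕ ((A → B) × II A B))} := by
      rw [← isOpen_compl_iff, isOpen_ZS]
      intro a ha
      exact absurd ⟨a, rfl⟩ ha
    exact h1.inter (h2.preimage continuous_snd)
  have hK : IsClosed K := by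
    rw [← isOpen_compl_iff, isOpen_prod_iff]
    rintro (_ | ⟨b, z⟩) t ht
    · rcases t with a | ji
      · refine ⟨{x | x = (none : Option (A × B)) ∨ ∃ c z, a < c ∧ x = (some (c, z) : Option (A × B))},
          {t | t = (Sum.inl a : A ⊕ ((A → B) × II A B)) ∨
            ∃ ji, t = (Sum.inr ji : A ⊕ ((A → B) × II A B))}, ?_, ?_, Or.inl rfl, Or.inl rfl, ?_⟩
        · rw [isOpen_XS]
          intro _
          exact ⟨a, Classical.arbitrary B, fun c z hc _ => Or.inr ⟨c, z, hc, rfl⟩⟩
        · rw [isOpen_ZS]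
          intro a' _ j
          exact ⟨∅, ∅, fun i _ => Or.inr ⟨_, rfl⟩⟩
        · rintro ⟨x, t⟩ ⟨hx, ht'⟩ ⟨b, z, h1, h2⟩
          dsimp only at hx ht' h1 h2
          subst h1 h2
          rcases hx with h | ⟨c, z', hc, h⟩
          · cases h
          · have h3 := Option.some.inj h
            obtain ⟨rfl, rfl⟩ := Prod.mk.inj h3
            rcases ht' with h4 | ⟨_, h4⟩
            · have h5 := Sum.inl.inj h4
              rw [h5] at hc
              exact lt_irrefl _ hc
            · cases h4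
      · refine ⟨univ, {t | ∃ ji, t = (Sum.inr ji : A ⊕ ((A → B) × II A B))}, isOpen_univ, ?_,
          trivial, ⟨_, rfl⟩, ?_⟩
        · rw [isOpen_ZS]
          rintro a ⟨_, h⟩
          cases h
        · rintro ⟨x, t⟩ ⟨-, ⟨_, rfl⟩⟩ ⟨b, z, -, h2⟩
          cases h2
    · refine ⟨{(some (b, z) : Option (A × B))}, {(Sum.inl b : A ⊕ ((A → B) × II A B))}ᶜ,
        isOpen_singleton_XS _, isClosed_singleton.isOpen_compl, rfl, ?_, ?_⟩
      · intro h
        exact ht ⟨b, z, rfl, h⟩
      · rintro ⟨x, t⟩ ⟨hx, ht'⟩ ⟨b', z', h1, h2⟩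
        dsimp only at h1 h2
        have h3 : (some (b, z) : Option (A × B)) = some (b', z') := hx.symm.trans h1
        obtain ⟨rfl, rfl⟩ := Prod.mk.inj (Option.some.inj h3)
        exact ht' h2
  have hdis : Disjoint H K := by
    rw [disjoint_left]
    rintro ⟨x, t⟩ ⟨h1, -⟩ ⟨b, z, h2, -⟩
    have h3 : (none : Option (A × B)) = some (b, z) := h1.symm.trans h2
    cases h3
  obtain ⟨U1, U2, hU1, hU2, hHU, hKU, hUU⟩ := normal_separation hH hK hdis
  have step1 : ∀ a : A, ∃ (al : A) (xi : B) (Q : Set (ZS A B)), IsOpen Q ∧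
      (Sum.inl a : A ⊕ ((A → B) × II A B)) ∈ Q ∧
      ∀ c z, al < c → xi < z → ∀ t ∈ Q, ((some (c, z) : Option (A × B)), t) ∈ U1 := by
    intro a
    obtain ⟨u, v, hu, hv, h1, h2, huv⟩ := isOpen_prod_iff.1 hU1 (none : Option (A × B))
      (Sum.inl a : A ⊕ ((A → B) × II A B)) (hHU ⟨rfl, a, rfl⟩)
    obtain ⟨al, xi, h3⟩ := hu h1
    exact ⟨al, xi, v, hv, h2, fun c z hc hz t ht => huv (mk_mem_prod (h3 c z hc hz) ht)⟩
  choose al xi Q hQ hQa hQU using step1
  have step2 : ∀ (b : A) (z : B), ∃ (Q : Set (ZS A B)), IsOpen Q ∧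
      (Sum.inl b : A ⊕ ((A → B) × II A B)) ∈ Q ∧
      ∀ t ∈ Q, ((some (b, z) : Option (A × B)), t) ∈ U2 := by
    intro b z
    obtain ⟨u, v, hu, hv, h1, h2, huv⟩ := isOpen_prod_iff.1 hU2 (some (b, z) : Option (A × B))
      (Sum.inl b : A ⊕ ((A → B) × II A B)) (hKU ⟨b, z, rfl, rfl⟩)
    exact ⟨v, hv, h2, fun t ht => huv (mk_mem_prod h1 ht)⟩
  choose Q' hQ' hQa' hQU' using step2
  obtain ⟨z, j, hzj⟩ := core hA hA2 hB hB2 hB3 al xi
  have h3 : ∀ a, ∃ r e, ∀ i ∈ VV j a r e, (Sum.inr (j, i) : A ⊕ ((A → B) × II A B)) ∈ Q a :=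
    fun a => hQ a a (hQa a) j
  choose r e hre using h3
  have h4 : ∀ b, ∃ r e, ∀ i ∈ VV j b r e, (Sum.inr (j, i) : A ⊕ ((A → B) × II A B)) ∈ Q' b z :=
    fun b => hQ' b z b (hQa' b z) j
  choose r' e' hre' using h4
  obtain ⟨a, b, hab, hal, hxi, hS, hf1, hf2⟩ := hzj (fun a => r a ∪ r' a) (fun a => e a ∪ e' a)
  let i : II A B := ((a, r a ∪ r' a, e a ∪ e' a), (b, r b ∪ r' b, e b ∪ e' b))
  have hNC : NC j i := ⟨hab.ne, hS, hf1, hf2⟩
  have hi1 : i ∈ VV j a (r a) (e a) :=
    ⟨hNC, Or.inl ⟨rfl, Finset.subset_union_left, Finset.subset_union_left⟩⟩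
  have hi2 : i ∈ VV j b (r' b) (e' b) :=
    ⟨hNC, Or.inr ⟨rfl, Finset.subset_union_right, Finset.subset_union_right⟩⟩
  have h5 := hQU a b z hal hxi _ (hre a i hi1)
  have h6 := hQU' b z _ (hre' b i hi2)
  exact disjoint_left.1 hUU h5 h6

end

theorem exists_counterexample : ∃ (X Y Z : Type u) (_ : TopologicalSpace X)
    (_ : TopologicalSpace Y) (_ : TopologicalSpace Z) (f : Y → Z),
    T2Space X ∧ ParacompactSpace X ∧ (∃ x₀ : X, ∀ x, x ≠ x₀ → IsOpen ({x} : Set X)) ∧
    T4Space Y ∧ T4Space Z ∧ NormalSpace (X × Y) ∧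
    Continuous f ∧ IsClosedMap f ∧ Function.Surjective f ∧ ¬ NormalSpace (X × Z) := by
  classical
  let A : Type u := (ℵ_ 2 : Cardinal.{u}).ord.ToType
  let B : Type u := (ℵ_ 1 : Cardinal.{u}).ord.ToType
  have hAc : #A = ℵ_ 2 := Cardinal.mk_ord_toType _
  have hBc : #B = ℵ_ 1 := Cardinal.mk_ord_toType _
  have h12 : (ℵ_ 1 : Cardinal.{u}) < ℵ_ 2 := Cardinal.aleph_lt_aleph.2 (by norm_num)
  have hs2 : (ℵ_ 2 : Cardinal.{u}) = Order.succ (ℵ_ 1) := by
    rw [Cardinal.succ_aleph]
    congr 1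
    norm_num
  have hs1 : (ℵ_ 1 : Cardinal.{u}) = Order.succ ℵ₀ := by
    rw [← Cardinal.aleph_zero, Cardinal.succ_aleph]
    congr 1
    norm_num
  have hins : ∀ {C : Type u} [LinearOrder C] (x : C), #(Iic x) ≤ #(Iio x) + 1 := by
    intro C _ x
    have h : Iic x = insert x (Iio x) := by
      ext y; simp [le_iff_eq_or_lt]
    rw [h]
    exact Cardinal.mk_insert_le
  have hA : ∀ x : A, #(Iic x) ≤ ℵ_ 1 := by
    intro x
    have h1 : #(Iio x) < ℵ_ 2 := by
      have := Cardinal.mk_Iio_lt (α := A) x (by rw [hAc]; exact (Ordinal.type_toType _).symm)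
      rwa [hAc] at this
    have h2 : #(Iio x) ≤ ℵ_ 1 := Order.lt_succ_iff.1 (h1.trans_eq hs2)
    calc #(Iic x) ≤ #(Iio x) + 1 := hins x
      _ ≤ ℵ_ 1 + 1 := by gcongr
      _ = ℵ_ 1 := Cardinal.add_one_eq (Cardinal.aleph0_le_aleph 1)
  have hB : ∀ x : B, (Iic x).Countable := by
    intro x
    have h1 : #(Iio x) < ℵ_ 1 := by
      have := Cardinal.mk_Iio_lt (α := B) x (by rw [hBc]; exact (Ordinal.type_toType _).symm)
      rwa [hBc] at this
    have h2 : #(Iio x) ≤ ℵ₀ := Order.lt_succ_iff.1 (h1.trans_eq hs1)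
    rw [← Cardinal.le_aleph0_iff_set_countable]
    calc #(Iic x) ≤ #(Iio x) + 1 := hins x
      _ ≤ ℵ₀ + 1 := by gcongr
      _ = ℵ₀ := Cardinal.add_one_eq le_rfl
  have hB2 : ¬ (univ : Set B).Countable := by
    rw [← Cardinal.le_aleph0_iff_set_countable, Cardinal.mk_univ, hBc, not_le, hs1]
    exact Order.lt_succ _
  have : Infinite A := by
    rw [Cardinal.infinite_iff, hAc]; exact Cardinal.aleph0_le_aleph 2
  have : Infinite B := by
    rw [Cardinal.infinite_iff, hBc]; exact Cardinal.aleph0_le_aleph 1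
  have : Nonempty A := inferInstance
  have : Nonempty B := inferInstance
  have hXY : NormalSpace (XS A B × YS A B) := by
    have h0 : ∀ j : A → B, NormalSpace (TS j × XS A B) := by
      intro j
      have := normal_prod j
      exact (Homeomorph.prodComm (XS A B) (TS j)).normalSpace
    have : NormalSpace (Σ j : A → B, TS j × XS A B) := normal_sigma h0
    have e1 : (XS A B × YS A B) ≃ₜ (Σ j : A → B, TS j × XS A B) :=
      (Homeomorph.prodComm _ _).trans Homeomorph.sigmaProdDistrib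
    exact e1.symm.normalSpace
  have : T2Space (XS A B) := t2_XS
  have hTn : ∀ j : A → B, NormalSpace (TS j) := by
    intro j
    have := normal_prod j
    have h1 : IsClosedEmbedding (Prod.mk (none : Option (A × B)) : TS j → XS A B × TS j) := by
      refine ⟨isEmbedding_prodMkRight (X := XS A B) (Y := TS j) (none : Option (A × B)), ?_⟩
      have h2 : Set.range (Prod.mk (none : Option (A × B)) : TS j → XS A B × TS j) =
          Prod.fst ⁻¹' {(none : Option (A × B))} := by
        ext ⟨x, t⟩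
        constructor
        · rintro ⟨t', ht'⟩
          exact (Prod.mk.inj ht').1.symm
        · intro h
          exact ⟨t, Prod.ext h.symm rfl⟩
      rw [h2]
      exact (isClosed_singleton_XS (none : Option (A × B))).preimage continuous_fst
    exact h1.normalSpace
  have : ∀ j : A → B, T1Space (TS j) := fun j => t1_TS j
  have : T1Space (ZS A B) := t1_ZS
  have : NormalSpace (YS A B) := normal_sigma hTn
  have : NormalSpace (ZS A B) :=
    normal_closed_image fmap continuous_fmap isClosedMap_fmap surjective_fmap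
  have : T1Space (YS A B) := by
    constructor
    rintro ⟨j, t⟩
    have h1 : ({⟨j, t⟩} : Set (YS A B)) = Sigma.mk j '' {t} := by simp
    rw [h1]
    exact isClosedMap_sigmaMk _ isClosed_singleton
  refine ⟨XS A B, YS A B, ZS A B, inferInstance, inferInstance, inferInstance, fmap,
    inferInstance, paracompact_XS, ⟨(none : Option (A × B)), ?_⟩, inferInstance, inferInstance,
    hXY, continuous_fmap,
    isClosedMap_fmap, surjective_fmap,
    not_normal_prod hA (by rw [hAc]; exact h12) hB hB2 hBc.le⟩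
  rintro (_ | d) hx
  · exact absurd rfl hx
  · exact isOpen_singleton_XS d

end Pool.Agent.Lib.MP_8829b8_gt
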