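import Pool.Agent.Lib.MP_8829b8_gt.Spaces

set_option autoImplicit false

open Set Cardinal Topology

universe u

namespace Pool.Agent.Lib.MP_8829b8_gt

section
variable {A B : Type u} [LinearOrder A] [LinearOrder B]

theorem isOpen_XS [Nonempty A] [Nonempty B] (U : Set (XS A B)) :
    IsOpen U ↔ ((none : Option (A × B)) ∈ U →
    ∃ (a : A) (b : B), ∀ c z, a < c → b < z → (some (c, z) : Option (A × B)) ∈ U) := Iff.rfl

/-- neighbourhood box in `X` attached to a point of `X × T_j`. -/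
def RX (j : A → B) (x1 : XS A B) (t1 : TS j) : Set (XS A B) :=
  {x | x = x1 ∨ ∃ d : A × B, x1 = (none : Option (A × B)) ∧ x = (some d : Option (A × B)) ∧
    (∀ a, t1 = (Sum.inl a : A ⊕ II A B) → d ∈ FF j a) ∧
    (∀ i, t1 = (Sum.inr i : A ⊕ II A B) → d ∉ i.1.2.2 ∧ d ∉ i.2.2.2)}

/-- the finite set of points used by the code of a point of `X`. -/
def ee : Option (A × B) → Finset (A × B)
  | none => ∅
  | some d => {d}

/-- neighbourhood box in `T_j` attached to a point of `X × T_j`; `Sf x` is the code used at `x`. -/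
def RT (j : A → B) (Sf : Option (A × B) → Set A) (x1 : XS A B) (t1 : TS j) : Set (TS j) :=
  {t | t = t1 ∨ ∃ a i, t1 = (Sum.inl a : A ⊕ II A B) ∧ t = (Sum.inr i : A ⊕ II A B) ∧
    i ∈ VV j a {Sf x1} (ee x1)}

theorem isOpen_RX [Nonempty A] [Nonempty B] (j : A → B) (x : XS A B) (t : TS j) :
    IsOpen (RX j x t) := by
  classical
  rw [isOpen_XS]
  intro hn
  have hx : x = (none : Option (A × B)) := by
    rcases hn with h | ⟨d, h, -⟩
    · exact h.symm
    · exact h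
  subst hx
  rcases t with a | i
  · refine ⟨a, j a, fun c z hc hz => Or.inr ⟨(c, z), rfl, rfl, ?_, ?_⟩⟩
    · intro a' h
      obtain rfl := Sum.inl.inj h
      exact ⟨hc, hz⟩
    · intro i h
      cases h
  · obtain ⟨M, hM⟩ := ((i.1.2.2 ∪ i.2.2.2).image Prod.fst).exists_le
    refine ⟨M, Classical.arbitrary B, fun c z hc _ => Or.inr ⟨(c, z), rfl, rfl, ?_, ?_⟩⟩
    · intro a h
      cases h
    · intro i' h
      obtain rfl := Sum.inr.inj h
      constructor
      · intro h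
        have h1 := hM c (Finset.mem_image.2 ⟨(c, z), Finset.mem_union_left _ h, rfl⟩)
        exact absurd hc (not_lt.2 h1)
      · intro h
        have h1 := hM c (Finset.mem_image.2 ⟨(c, z), Finset.mem_union_right _ h, rfl⟩)
        exact absurd hc (not_lt.2 h1)

theorem isOpen_RT (j : A → B) (Sf : Option (A × B) → Set A) (x : XS A B)
    (t : TS j) : IsOpen (RT j Sf x t) := by
  rw [isOpen_TS]
  intro a ha
  have ht : t = (Sum.inl a : A ⊕ II A B) := by
    rcases ha with h | ⟨b, i, h1, h2, -⟩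
    · exact h.symm
    · cases h2
  exact ⟨_, _, fun i hi => Or.inr ⟨a, i, ht, rfl, hi⟩⟩

/-- `X × T_j` is normal. -/
theorem normal_prod [Nonempty A] [Nonempty B] (j : A → B) : NormalSpace (XS A B × TS j) := by
  classical
  constructor
  intro H K hH hK hHK
  let Sf : Option (A × B) → Set A := fun x => {a | ((x, Sum.inl a) : XS A B × TS j) ∈ H}
  -- boxes missing a closed set
  have box : ∀ (C : Set (XS A B × TS j)), IsClosed C → ∀ p : XS A B × TS j, p ∉ C →
      ∃ (P : Set (XS A B)) (Q : Set (TS j)), IsOpen P ∧ IsOpen Q ∧ p.1 ∈ P ∧ p.2 ∈ Q ∧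
        P ⊆ RX j p.1 p.2 ∧ Q ⊆ RT j Sf p.1 p.2 ∧ ∀ x ∈ P, ∀ t ∈ Q, (x, t) ∉ C := by
    intro C hC p hp
    obtain ⟨u, v, hu, hv, hpu, hpv, huv⟩ := isOpen_prod_iff.1 hC.isOpen_compl p.1 p.2 hp
    refine ⟨u ∩ RX j p.1 p.2, v ∩ RT j Sf p.1 p.2, hu.inter (isOpen_RX j _ _),
      hv.inter (isOpen_RT j Sf _ _), ⟨hpu, Or.inl rfl⟩,
      ⟨hpv, Or.inl rfl⟩, inter_subset_right, inter_subset_right, ?_⟩
    intro x hx t ht
    exact huv (mk_mem_prod hx.1 ht.1)
  have boxH : ∀ p : XS A B × TS j, p ∈ H → ∃ (P : Set (XS A B)) (Q : Set (TS j)),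
      IsOpen P ∧ IsOpen Q ∧ p.1 ∈ P ∧ p.2 ∈ Q ∧
        P ⊆ RX j p.1 p.2 ∧ Q ⊆ RT j Sf p.1 p.2 ∧ ∀ x ∈ P, ∀ t ∈ Q, (x, t) ∉ K :=
    fun p hp => box K hK p (fun h => disjoint_left.1 hHK hp h)
  have boxK : ∀ p : XS A B × TS j, p ∈ K → ∃ (P : Set (XS A B)) (Q : Set (TS j)),
      IsOpen P ∧ IsOpen Q ∧ p.1 ∈ P ∧ p.2 ∈ Q ∧
        P ⊆ RX j p.1 p.2 ∧ Q ⊆ RT j Sf p.1 p.2 ∧ ∀ x ∈ P, ∀ t ∈ Q, (x, t) ∉ H :=
    fun p hp => box H hH p (fun h => disjoint_left.1 hHK h hp)
  choose! P Q hP hQ hpP hpQ hPR hQR hPQ using boxH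
  choose! P' Q' hP' hQ' hpP' hpQ' hPR' hQR' hPQ' using boxK
  refine ⟨⋃ p ∈ H, P p ×ˢ Q p, ⋃ p ∈ K, P' p ×ˢ Q' p, ?_, ?_, ?_, ?_, ?_⟩
  · exact isOpen_biUnion fun p hp => (hP p hp).prod (hQ p hp)
  · exact isOpen_biUnion fun p hp => (hP' p hp).prod (hQ' p hp)
  · intro p hp
    exact mem_biUnion hp (mk_mem_prod (hpP p hp) (hpQ p hp))
  · intro p hp
    exact mem_biUnion hp (mk_mem_prod (hpP' p hp) (hpQ' p hp))
  · rw [disjoint_left]
    rintro ⟨x, t⟩ h1 h2
    simp only [mem_iUnion, mem_prod, exists_prop] at h1 h2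
    obtain ⟨⟨x1, t1⟩, hpH, hx, ht⟩ := h1
    obtain ⟨⟨x2, t2⟩, hqK, hx', ht'⟩ := h2
    -- cross information
    have c1 : ∀ x ∈ P (x1, t1), ∀ t ∈ Q (x1, t1), (x, t) ∉ K := hPQ _ hpH
    have c2 : ∀ x ∈ P' (x2, t2), ∀ t ∈ Q' (x2, t2), (x, t) ∉ H := hPQ' _ hqK
    have a1 : x1 ∈ P (x1, t1) := hpP _ hpH
    have a2 : t1 ∈ Q (x1, t1) := hpQ _ hpH
    have b1 : x2 ∈ P' (x2, t2) := hpP' _ hqK
    have b2 : t2 ∈ Q' (x2, t2) := hpQ' _ hqK
    have rx : x ∈ RX j x1 t1 := hPR _ hpH hx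
    have rx' : x ∈ RX j x2 t2 := hPR' _ hqK hx'
    have rt : t ∈ RT j Sf x1 t1 := hQR _ hpH ht
    have rt' : t ∈ RT j Sf x2 t2 := hQR' _ hqK ht'
    have hSf1 : ∀ a, t1 = (Sum.inl a : A ⊕ II A B) → a ∈ Sf x1 := by
      rintro a rfl; exact hpH
    have hSf2 : ∀ a, t2 = (Sum.inl a : A ⊕ II A B) → a ∉ Sf x2 := by
      rintro a rfl h; exact disjoint_left.1 hHK h hqK
    have hxt : ((x, t) : XS A B × TS j) ∉ K := c1 x hx t ht
    have hxt' : ((x, t) : XS A B × TS j) ∉ H := c2 x hx' t ht'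
    have hpq : ¬ (x1 = x2 ∧ t1 = t2) := by
      rintro ⟨rfl, rfl⟩; exact disjoint_left.1 hHK hpH hqK
    rcases rx with rfl | ⟨d, rfl, rfl, rx1, rx2⟩
    · -- x = x1
      rcases rt with rfl | ⟨a, i, rfl, rfl, hi⟩
      · exact hxt' hpH
      · rcases rx' with rfl | ⟨d, rfl, rfl, rx1', rx2'⟩
        · rcases rt' with rfl | ⟨b, i', rfl, h3, hi'⟩
          · exact hxt hqK
          · obtain rfl := Sum.inr.inj h3
            exact VV_sep_code j (Finset.mem_singleton_self _) (Finset.mem_singleton_self _)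
              (fun h => hSf2 b rfl (h.1 (hSf1 a rfl))) hi hi'
        · -- x1 = some d, x2 = none
          rcases rt' with rfl | ⟨b, i', rfl, h3, hi'⟩
          · -- t2 = inr i
            have h4 := rx2' i rfl
            rcases hi.2 with h5 | h5
            · exact h4.1 (h5.2.2 (Finset.mem_singleton_self d))
            · exact h4.2 (h5.2.2 (Finset.mem_singleton_self d))
          · obtain rfl := Sum.inr.inj h3
            by_cases hab : a = b
            · subst hab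
              exact c2 _ hx' _ b2 hpH
            · exact VV_sep_point j (rx1' b rfl) (Finset.mem_singleton_self d) (Ne.symm hab) hi' hi
    · -- x1 = none, x = some d
      rcases rx' with rfl | ⟨d', rfl, h0, rx1', rx2'⟩
      · rcases rt' with rfl | ⟨b, i, rfl, rfl, hi'⟩
        · exact hxt hqK
        · rcases rt with rfl | ⟨a, i', rfl, h3, hi⟩
          · have h4 := rx2 i rfl
            rcases hi'.2 with h5 | h5
            · exact h4.1 (h5.2.2 (Finset.mem_singleton_self d))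
            · exact h4.2 (h5.2.2 (Finset.mem_singleton_self d))
          · obtain rfl := Sum.inr.inj h3
            by_cases hab : a = b
            · subst hab
              exact c1 _ hx _ a2 hqK
            · exact VV_sep_point j (rx1 a rfl) (Finset.mem_singleton_self d) hab hi hi'
      · rcases rt with rfl | ⟨a, i, rfl, rfl, hi⟩
        · rcases rt' with rfl | ⟨b, i', rfl, rfl, hi'⟩
          · exact hpq ⟨rfl, rfl⟩
          · exact c2 _ b1 _ ht' hpH
        · rcases rt' with rfl | ⟨b, i', rfl, h3, hi'⟩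
          · exact c1 _ a1 _ ht hqK
          · obtain rfl := Sum.inr.inj h3
            exact VV_sep_code j (Finset.mem_singleton_self _) (Finset.mem_singleton_self _)
              (fun h => hSf2 b rfl (h.1 (hSf1 a rfl))) hi hi'

end

end Pool.Agent.Lib.MP_8829b8_gt
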