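import Pool.Agent.Lib.MP_8829b8_gt.PCore

set_option autoImplicit false

open Set Cardinal

universe u

namespace Pool.Agent.Lib.MP_8829b8_gt.PSp

theorem mk_seq_le {α : Type u} (h : #α ≤ 𝔠) : #(ℕ → α) ≤ 𝔠 := by
  have h1 : #(ℕ → α) = #α ^ (ℵ₀ : Cardinal.{u}) := by
    rw [← Cardinal.lift_id (#(ℕ → α))]
    simp [Cardinal.mk_pi]
  rw [h1]
  calc #α ^ (ℵ₀ : Cardinal.{u}) ≤ 𝔠 ^ (ℵ₀ : Cardinal.{u}) := Cardinal.power_le_power_right h
    _ = 𝔠 := Cardinal.continuum_power_aleph0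

section
variable {K : Type u} [LinearOrder K]

/-- the assignment occurs in a code with index below `γ` -/
def Occ (C : K → Finset (Code K)) (γ : K) (φ : Asg K) : Prop := ∃ ν < γ, ∃ c ∈ C ν, c.1 = φ

/-- the set of possible traces -/
def Om (C : K → Finset (Code K)) (γ : K) :
    Set (Asg K × (Option Bool × ℕ) × Bool × (ℕ → Option K)) :=
  {w | Occ C γ w.1 ∧ ∀ i z, w.2.2.2 i = some z → z < γ}

theorem mk_Om_le (h1 : ∀ x : K, #(Iic x) ≤ 𝔠) (C : K → Finset (Code K)) (γ : K) :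
    #(Om C γ) ≤ 𝔠 := by
  classical
  have hΦ : #{φ // Occ C γ φ} ≤ 𝔠 := by
    have e : {φ | Occ C γ φ} = ⋃ ν : Iic γ, {φ | ν.1 < γ ∧ ∃ c ∈ C ν.1, c.1 = φ} := by
      ext φ
      simp only [mem_iUnion]
      constructor
      · rintro ⟨ν, h, h'⟩
        exact ⟨⟨ν, h.le⟩, h, h'⟩
      · rintro ⟨ν, h, h'⟩
        exact ⟨ν.1, h, h'⟩
    have e2 : #({φ | Occ C γ φ} : Set (Asg K)) ≤ 𝔠 := by
      rw [e]
      refine (Cardinal.mk_iUnion_le _).trans ?_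
      have h5 : (⨆ ν : Iic γ, #({φ | ν.1 < γ ∧ ∃ c ∈ C ν.1, c.1 = φ} : Set (Asg K))) ≤ 𝔠 := by
        apply ciSup_le'
        intro ν
        have h6 : ({φ | ν.1 < γ ∧ ∃ c ∈ C ν.1, c.1 = φ} : Set (Asg K)) ⊆
            ((C ν.1).image Prod.fst : Finset (Asg K)) := by
          rintro φ ⟨-, c, hc, rfl⟩
          exact Finset.mem_coe.2 (Finset.mem_image_of_mem _ hc)
        refine (Cardinal.mk_le_mk_of_subset h6).trans ?_
        exact ((Finset.countable_toSet _).le_aleph0).trans Cardinal.aleph0_le_continuum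
      calc #(Iic γ) * _ ≤ 𝔠 * 𝔠 := mul_le_mul' (h1 γ) h5
        _ = 𝔠 := Cardinal.continuum_mul_self
    exact e2
  have hS : #(ℕ → Option (Iic γ)) ≤ 𝔠 := by
    apply mk_seq_le
    rw [Cardinal.mk_option]
    calc #(Iic γ) + 1 ≤ 𝔠 + 1 := by gcongr; exact h1 γ
      _ = 𝔠 := Cardinal.add_one_eq Cardinal.aleph0_le_continuum
  let F : Om C γ → {φ // Occ C γ φ} × (ULift.{u} ((Option Bool × ℕ) × Bool)) × (ℕ → Option (Iic γ)) :=
    fun w => (⟨w.1.1, w.2.1⟩, ⟨(w.1.2.1, w.1.2.2.1)⟩, fun i =>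
      match h : w.1.2.2.2 i with
      | none => none
      | some z => some ⟨z, (w.2.2 i z h).le⟩)
  have hF : Function.Injective F := by
    rintro ⟨w, hw⟩ ⟨w', hw'⟩ h
    have e1 := congrArg (fun p => p.1.1) h
    have e2 : (w.2.1, w.2.2.1) = (w'.2.1, w'.2.2.1) := congrArg (fun p => p.2.1.down) h
    have e3 : ∀ i, (F ⟨w, hw⟩).2.2 i = (F ⟨w', hw'⟩).2.2 i := fun i =>
      congrFun (congrArg (fun p => p.2.2) h) i
    apply Subtype.ext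
    refine Prod.ext e1 (Prod.ext (Prod.mk.inj e2).1 (Prod.ext (Prod.mk.inj e2).2 ?_))
    funext i
    have e4 : ∀ (v : Asg K × (Option Bool × ℕ) × Bool × (ℕ → Option K)) (hv : v ∈ Om C γ),
        ((F ⟨v, hv⟩).2.2 i).map Subtype.val = v.2.2.2 i := by
      intro v hv
      dsimp only [F]
      split
      · rename_i h'; exact h'.symm
      · rename_i z h'; exact h'.symm
    show w.2.2.2 i = w'.2.2.2 i
    rw [← e4 w hw, ← e4 w' hw', e3 i]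
  refine (Cardinal.mk_le_of_injective hF).trans ?_
  rw [Cardinal.mk_prod, Cardinal.mk_prod]
  simp only [Cardinal.lift_id]
  have h7 : #(ULift.{u} ((Option Bool × ℕ) × Bool)) ≤ 𝔠 := by
    have : #(ULift.{u} ((Option Bool × ℕ) × Bool)) ≤ ℵ₀ := Cardinal.mk_le_aleph0
    exact this.trans Cardinal.aleph0_le_continuum
  calc _ ≤ 𝔠 * (𝔠 * 𝔠) := mul_le_mul' hΦ (mul_le_mul' h7 hS)
    _ = 𝔠 := by rw [Cardinal.continuum_mul_self, Cardinal.continuum_mul_self]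

/-- traces of the codes of `ν` below `γ` -/
def Tr (C : K → Finset (Code K)) (m : K → (ℕ → K)) (γ ν : K) :
    Set (Asg K × (Option Bool × ℕ) × Bool × (ℕ → Option K)) :=
  {w | ∃ c ∈ C ν, Occ C γ c.1 ∧ w = (c.1, c.1 c.2 (m ν), c.2.2, trunc γ c.2.1)}

theorem mk_range_Tr_le (h1 : ∀ x : K, #(Iic x) ≤ 𝔠) (C : K → Finset (Code K)) (m : K → (ℕ → K))
    (γ : K) : #(range (Tr C m γ)) ≤ 𝔠 := by
  classical
  have h3 : range (Tr C m γ) ⊆ {s | s ⊆ Om C γ ∧ #s ≤ ℵ₀} := by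
    rintro s ⟨ν, rfl⟩
    constructor
    · rintro w ⟨c, hc, ho, rfl⟩
      refine ⟨ho, fun i z hz => ?_⟩
      dsimp only [trunc] at hz
      split at hz
      · rename_i h
        rwa [← Option.some.inj hz]
      · cases hz
    · have h4 : Tr C m γ ν ⊆ ((C ν).image (fun c => (c.1, c.1 c.2 (m ν), c.2.2, trunc γ c.2.1)) :
          Finset _) := by
        rintro w ⟨c, hc, ho, rfl⟩
        exact Finset.mem_coe.2 (Finset.mem_image_of_mem _ hc)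
      exact (Cardinal.mk_le_mk_of_subset h4).trans (Finset.countable_toSet _).le_aleph0
  refine (Cardinal.mk_le_mk_of_subset h3).trans ?_
  refine (Cardinal.mk_bounded_subset_le (Om C γ) ℵ₀).trans ?_
  calc max #(Om C γ) ℵ₀ ^ (ℵ₀ : Cardinal.{u}) ≤ 𝔠 ^ (ℵ₀ : Cardinal.{u}) :=
      Cardinal.power_le_power_right (max_le (mk_Om_le h1 C γ) Cardinal.aleph0_le_continuum)
    _ = 𝔠 := Cardinal.continuum_power_aleph0

/-- The combinatorial core: finite sets of codes attached to the points `m ν` (with `m ν t = ν`)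
can never be pairwise in conflict. -/
theorem core {B : Type u} [WellFoundedLT K] [LinearOrder B] [WellFoundedLT B]
    (h1 : ∀ x : K, #(Iic x) ≤ 𝔠) (h2 : 𝔠 < #K)
    (hB1 : ∀ x : B, #(Iic x) ≤ ℵ₀) (hB2 : ℵ₀ < #B) (hB3 : #B ≤ 𝔠)
    (t : ℕ) (m : K → (ℕ → K)) (hm : ∀ ν, m ν t = ν) (C : K → Finset (Code K)) :
    ∃ ν δ, ν < δ ∧ ∀ c ∈ C ν, ∀ c' ∈ C δ, ¬ Conf t (m ν) c (m δ) c' := by
  classical
  have hc : (ℵ₀ : Cardinal.{u}) ≤ 𝔠 := Cardinal.aleph0_le_continuum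
  -- a bound for the coordinates
  have hh : ∀ ν, ∃ z, ∀ c ∈ C ν, ∀ i, c.2.1 i < z := by
    intro ν
    obtain ⟨z, hz⟩ := exists_bound (ι := (C ν) × ULift.{u} ℕ) hc h1 h2 (fun p => p.1.1.2.1 p.2.down)
      ((Cardinal.mk_le_aleph0).trans hc)
    exact ⟨z, fun c hc i => hz (⟨c, hc⟩, ⟨i⟩)⟩
  choose h hh using hh
  obtain ⟨δ, hδ1, hδ2, hδ3⟩ := reflect hc h1 h2 hB1 hB2 hB3 (Tr C m) (mk_range_Tr_le h1 C m) h
  -- the parameters
  have hw : ∀ φ : Asg K, ∃ ν : K, Occ C δ φ → ν < δ ∧ ∃ c ∈ C ν, c.1 = φ := by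
    intro φ
    by_cases ho : Occ C δ φ
    · obtain ⟨ν, hν, h⟩ := ho
      exact ⟨ν, fun _ => ⟨hν, h⟩⟩
    · exact ⟨δ, fun h => absurd h ho⟩
  choose w hw using hw
  let s : Set K := {x | x < δ ∧ ∃ c ∈ C δ, (∃ i, x = c.2.1 i) ∨ x = w c.1}
  have hs : s.Countable := by
    have h3 : s ⊆ (⋃ c ∈ C δ, (range c.2.1 ∪ {w c.1})) := by
      rintro x ⟨-, c, hc, ⟨i, rfl⟩ | rfl⟩
      · exact mem_biUnion hc (Or.inl ⟨i, rfl⟩)
      · exact mem_biUnion hc (Or.inr rfl)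
    refine Set.Countable.mono h3 ?_
    refine Set.Countable.biUnion (Finset.countable_toSet _) ?_
    intro c _
    exact (countable_range _).union (countable_singleton _)
  obtain ⟨γ, hγ, hsγ⟩ := hδ1 s hs (fun x hx => hx.1)
  have p1 : ∀ c ∈ C δ, ∀ i, c.2.1 i < δ → c.2.1 i < γ := fun c hc i hi =>
    hsγ _ ⟨hi, c, hc, Or.inl ⟨i, rfl⟩⟩
  have p2 : ∀ c ∈ C δ, Occ C δ c.1 → Occ C γ c.1 := by
    intro c hc ho
    obtain ⟨h3, h4⟩ := hw _ ho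
    exact ⟨w c.1, hsγ _ ⟨h3, c, hc, Or.inr rfl⟩, h4⟩
  obtain ⟨ν, hν, hE⟩ := hδ3 γ hγ
  refine ⟨ν, δ, hν, ?_⟩
  rintro c hcν c' hcδ ⟨e1, hA, hopp, z, hz1, hz2⟩
  obtain ⟨φ, y⟩ := c
  obtain ⟨φ', x⟩ := c'
  dsimp only at e1 hA hopp hz1 hz2
  subst e1
  have q1 : Occ C γ φ := p2 (φ, x) hcδ ⟨ν, hν, (φ, y), hcν, rfl⟩
  have q2 : ((φ, φ y (m ν), y.2, trunc γ y.1) :
      Asg K × (Option Bool × ℕ) × Bool × (ℕ → Option K)) ∈ Tr C m γ ν :=
    ⟨(φ, y), hcν, q1, rfl⟩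
  rw [hE] at q2
  obtain ⟨⟨φ'', x'⟩, hc'', -, q3⟩ := q2
  dsimp only at q3
  have q4 : φ = φ'' := congrArg Prod.fst q3
  subst q4
  have q5 := (Prod.mk.inj q3).2
  have q6 := Prod.mk.inj q5
  have q7 := Prod.mk.inj q6.2
  exact key hA (hm δ) (x := x) (x' := x') (y := y) (γ := γ) (p1 _ hcδ) (p1 _ hc'')
    (fun i => (hh ν _ hcν i).trans (hδ2 ν hν)) q6.1.symm q7.1.symm q7.2.symm hopp hz1 hz2

end

end Pool.Agent.Lib.MP_8829b8_gt.PSp
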