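import Pool.Agent.Lib.MP_8829b8_gt.PReflect

set_option autoImplicit false

open Set Cardinal

universe u

namespace Pool.Agent.Lib.MP_8829b8_gt.PSp

/-- The Alexandroff duplicate of `K^ω` (`K` discrete), as a set: to every `x : ℕ → K` there are two
points, `⟨x, false⟩` (non-isolated) and `⟨x, true⟩` (isolated). -/
@[ext] structure XP (K : Type u) : Type u where
  /-- the underlying point of `K^ω` -/
  pt : ℕ → K
  /-- whether the point is isolated -/
  iso : Bool

/-- basic neighbourhoods in the Alexandroff duplicate of `K^ω`; the points `⟨x, false⟩` are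
non-isolated, the points `⟨x, true⟩` are isolated. -/
def NB {K : Type u} (p : XP K) (n : ℕ) : Set (XP K) :=
  {q | q = p ∨ (p.2 = false ∧ q.1 ≠ p.1 ∧ ∀ i < n, q.1 i = p.1 i)}

section NB
variable {K : Type u}

theorem NB_self (p : XP K) (n : ℕ) : p ∈ NB p n := Or.inl rfl

theorem NB_agree {p q : XP K} {n : ℕ} (h : q ∈ NB p n) : ∀ i < n, q.1 i = p.1 i := by
  rcases h with rfl | h
  · exact fun _ _ => rfl
  · exact h.2.2

theorem NB_true {p q : XP K} {n : ℕ} (hp : p.2 = true) (h : q ∈ NB p n) : q = p := by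
  rcases h with h | h
  · exact h
  · rw [hp] at h; exact absurd h.1 (by simp)

theorem NB_mono {p : XP K} {m n : ℕ} (h : m ≤ n) : NB p n ⊆ NB p m := by
  rintro q (hq | hq)
  · exact Or.inl hq
  · exact Or.inr ⟨hq.1, hq.2.1, fun i hi => hq.2.2 i (lt_of_lt_of_le hi h)⟩

/-- the two neighbourhoods are disjoint if neither contains the other's centre -/
theorem NB_disj_aux {x y z : XP K} {n m : ℕ} (hnm : n ≤ m) (h1 : x ∉ NB y m)
    (h2 : y ∉ NB x n) (hz1 : z ∈ NB x n) (hz2 : z ∈ NB y m) : False := by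
  have a1 := NB_agree hz1
  have a2 := NB_agree hz2
  have a3 : ∀ i < n, y.1 i = x.1 i := fun i hi =>
    (a2 i (lt_of_lt_of_le hi hnm)).symm.trans (a1 i hi)
  have h3 : ¬ y = x := fun h => h2 (Or.inl h)
  have h4 : ¬ (x.2 = false ∧ y.1 ≠ x.1) := fun h => h2 (Or.inr ⟨h.1, h.2, a3⟩)
  rcases hx : x.2 with _ | _
  · have h5 : y.1 = x.1 := by
      by_contra h; exact h4 ⟨hx, h⟩
    have h6 : y.2 = true := by
      rcases hy : y.2 with _ | _
      · exact absurd (XP.ext h5 (hy.trans hx.symm)) h3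
      · rfl
    have h7 := NB_true h6 hz2
    subst h7
    exact h2 hz1
  · have h7 := NB_true hx hz1
    subst h7
    exact h1 hz2

theorem NB_disj {x y z : XP K} {n m : ℕ} (h1 : x ∉ NB y m)
    (h2 : y ∉ NB x n) (hz1 : z ∈ NB x n) (hz2 : z ∈ NB y m) : False := by
  rcases le_total n m with h | h
  · exact NB_disj_aux h h1 h2 hz1 hz2
  · exact NB_disj_aux h h2 h1 hz2 hz1

end NB

/-- opposite labels -/
def opp (p q : Option Bool) : Prop := ∃ s : Bool, p = some s ∧ q = some (!s)

theorem opp_symm {p q : Option Bool} (h : opp p q) : opp q p := by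
  obtain ⟨s, rfl, rfl⟩ := h
  exact ⟨!s, rfl, by simp⟩

/-- A labelled neighbourhood assignment: to a point `x` of the duplicate and a point `a` of `K^ω`
it assigns a label and a natural number. -/
abbrev Asg (K : Type u) : Type u := XP K → (ℕ → K) → Option Bool × ℕ

/-- codes -/
abbrev Code (K : Type u) : Type u := Asg K × XP K

section Core
variable {K : Type u} [LinearOrder K]

/-- admissibility of an assignment with respect to the coordinate `t`. -/
def Adm (t : ℕ) (φ : Asg K) : Prop :=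
  (∀ x a, (∀ i < (φ x a).2, x.1 i < a t) → ∀ i, x.1 i < a t) ∧
  (∀ x y a, opp (φ x a).1 (φ y a).1 → y ∉ NB x (φ x a).2)

/-- conflict between a code at `a` and a code at `b` -/
def Conf (t : ℕ) (a : ℕ → K) (c : Code K) (b : ℕ → K) (c' : Code K) : Prop :=
  c.1 = c'.1 ∧ Adm t c.1 ∧ opp (c.1 c.2 a).1 (c.1 c'.2 b).1 ∧
    (NB c.2 (c.1 c.2 a).2 ∩ NB c'.2 (c.1 c'.2 b).2).Nonempty

open Classical in
/-- truncation of a sequence -/
noncomputable def trunc (γ : K) (x : ℕ → K) : ℕ → Option K :=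
  fun i => if x i < γ then some (x i) else none

theorem trunc_eq {γ : K} {x y : ℕ → K} (h : trunc γ x = trunc γ y) {i : ℕ} (hi : x i < γ) :
    y i = x i := by
  have h1 := congrFun h i
  unfold trunc at h1
  rw [if_pos hi] at h1
  by_cases h2 : y i < γ
  · rw [if_pos h2] at h1
    exact (Option.some.inj h1).symm
  · rw [if_neg h2] at h1
    cases h1

theorem trunc_eq_all {γ : K} {x y : ℕ → K} (h : trunc γ x = trunc γ y) (hx : ∀ i, x i < γ) :
    y = x := funext fun _ => trunc_eq h (hx _)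

/-- the key case analysis -/
theorem key {t : ℕ} {φ : Asg K} (hφ : Adm t φ) {δ γ : K} {md : ℕ → K} (hmd : md t = δ)
    {mv : ℕ → K}
    {x x' y : XP K}
    (hx : ∀ i, x.1 i < δ → x.1 i < γ) (hx' : ∀ i, x'.1 i < δ → x'.1 i < γ)
    (hy : ∀ i, y.1 i < δ) (e1 : φ x' md = φ y mv) (e2 : x'.2 = y.2)
    (e3 : trunc γ x'.1 = trunc γ y.1) (hopp : opp (φ y mv).1 (φ x md).1)
    {z : XP K} (hz1 : z ∈ NB y (φ y mv).2) (hz2 : z ∈ NB x (φ x md).2) : False := by
  rw [← e1] at hz1 hopp
  have n1 : x ∉ NB x' (φ x' md).2 := hφ.2 _ _ _ hopp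
  have n2 : x' ∉ NB x (φ x md).2 := hφ.2 _ _ _ (opp_symm hopp)
  have r1 : (∀ i < (φ x md).2, x.1 i < δ) → ∀ i, x.1 i < γ := by
    intro h i
    have := hφ.1 x md (by rw [hmd]; exact h) i
    rw [hmd] at this
    exact hx i this
  have r2 : (∀ i < (φ x' md).2, x'.1 i < δ) → ∀ i, x'.1 i < γ := by
    intro h i
    have := hφ.1 x' md (by rw [hmd]; exact h) i
    rw [hmd] at this
    exact hx' i this
  set n := (φ x md).2 with hn
  set n' := (φ x' md).2 with hn'
  have a1 := NB_agree hz1
  have a2 := NB_agree hz2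
  -- transfer of agreement from `y` to `x'`
  have tr : ∀ i, x.1 i = y.1 i → x'.1 i = x.1 i := by
    intro i h
    have h1 : x.1 i < γ := hx i (by rw [h]; exact hy i)
    have h2 : y.1 i < γ := by rw [← h]; exact h1
    rw [trunc_eq e3.symm h2, h]
  have n1' : x ≠ x' := fun h => n1 (Or.inl h)
  have n1'' : ¬ (x'.2 = false ∧ x.1 ≠ x'.1 ∧ ∀ i < n', x.1 i = x'.1 i) := fun h => n1 (Or.inr h)
  have n2'' : ¬ (x.2 = false ∧ x'.1 ≠ x.1 ∧ ∀ i < n, x'.1 i = x.1 i) := fun h => n2 (Or.inr h)
  -- if all coordinates of `x` agree with those of `y` then `x'` and `y` coincide with `x`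
  have full : x.1 = y.1 → x'.1 = x.1 := fun h => funext fun i => tr i (congrFun h i)
  have fullx : (∀ i, x.1 i < γ) → x'.1 = x.1 → y.1 = x.1 := by
    intro h h'
    have h3 : ∀ i, x'.1 i < γ := fun i => by rw [h']; exact h i
    rw [trunc_eq_all e3 h3, h']
  rcases le_or_gt n n' with hnn | hnn
  · -- `n ≤ n'`
    have g1 : ∀ i < n, x.1 i = y.1 i := fun i hi =>
      (a2 i hi).symm.trans (a1 i (lt_of_lt_of_le hi hnn))
    have g2 : ∀ i, x.1 i < γ := r1 fun i hi => by rw [g1 i hi]; exact hy i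
    have g3 : ∀ i < n, x'.1 i = x.1 i := fun i hi => tr i (g1 i hi)
    rcases hxb : x.2 with _ | _
    · have g4 : x'.1 = x.1 := by
        by_contra h; exact n2'' ⟨hxb, h, g3⟩
      have g5 : y.1 = x.1 := fullx g2 g4
      have g6 : x'.2 = true := by
        rcases hb : x'.2 with _ | _
        · exact absurd (XP.ext g4 (hb.trans hxb.symm)).symm n1'
        · rfl
      have g7 : y = x' := XP.ext (g5.trans g4.symm) e2.symm
      have g8 : z = y := NB_true (e2 ▸ g6) hz1
      rw [g8, g7] at hz2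
      exact n2 hz2
    · have g8 : z = x := NB_true hxb hz2
      rw [g8] at hz1
      rcases hz1 with h | ⟨h, h', h''⟩
      · -- x = y
        have g4 : x'.1 = x.1 := full (by rw [h])
        exact n1' (XP.ext g4.symm (by rw [e2, h]))
      · have g5 : ∀ i < n', x.1 i = x'.1 i := fun i hi => (tr i (h'' i hi)).symm
        have g4 : x.1 = x'.1 := by
          by_contra h3; exact n1'' ⟨e2.trans h, h3, g5⟩
        exact h' (fullx g2 g4.symm).symm
  · -- `n' < n`
    have g1 : ∀ i < n', x.1 i = y.1 i := fun i hi =>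
      (a2 i (lt_trans hi hnn)).symm.trans (a1 i hi)
    have g3 : ∀ i < n', x.1 i = x'.1 i := fun i hi => (tr i (g1 i hi)).symm
    rcases hxb : x'.2 with _ | _
    · have g4 : x.1 = x'.1 := by
        by_contra h; exact n1'' ⟨hxb, h, g3⟩
      have g2 : ∀ i, x'.1 i < γ := r2 fun i hi => by
        rw [← g3 i hi, g1 i hi]; exact hy i
      have g5 : y.1 = x'.1 := trunc_eq_all e3 g2
      have g6 : x.2 = true := by
        rcases hb : x.2 with _ | _
        · exact absurd (XP.ext g4 (hb.trans hxb.symm)) n1'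
        · rfl
      have g8 : z = x := NB_true g6 hz2
      rw [g8] at hz1
      rcases hz1 with h | ⟨h, h', h''⟩
      · rw [h, ← e2, hxb] at g6
        cases g6
      · exact h' (g4.trans g5.symm)
    · have g8 : z = y := NB_true (e2 ▸ hxb) hz1
      rw [g8] at hz2
      rcases hz2 with h | ⟨h, h', h''⟩
      · have g4 : x'.1 = x.1 := full (by rw [h])
        exact n1' (XP.ext g4.symm (by rw [e2, h]))
      · have g2 : ∀ i, x.1 i < γ := r1 fun i hi => by rw [← h'' i hi]; exact hy i
        have g5 : ∀ i < n, x'.1 i = x.1 i := fun i hi => tr i (h'' i hi).symm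
        have g4 : x'.1 = x.1 := by
          by_contra h3; exact n2'' ⟨h, h3, g5⟩
        exact h' (fullx g2 g4)

end Core

end Pool.Agent.Lib.MP_8829b8_gt.PSp
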