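import Pool.Agent.Lib.MP_8829b8_gt.PCard

set_option autoImplicit false

open Set Cardinal Topology

universe u

namespace Pool.Agent.Lib.MP_8829b8_gt.PSp

/-- The topology of the Alexandroff duplicate of `K^ω` (`K` discrete): the points `⟨x, true⟩` are
isolated, basic neighbourhoods of `⟨x, false⟩` are the sets `NB ⟨x, false⟩ n`. -/
instance instXP (K : Type u) : TopologicalSpace (XP K) where
  IsOpen U := ∀ p ∈ U, ∃ n, NB p n ⊆ U
  isOpen_univ := fun _ _ => ⟨0, fun _ _ => trivial⟩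
  isOpen_inter := by
    intro s t hs ht p hp
    obtain ⟨n, hn⟩ := hs p hp.1
    obtain ⟨m, hm⟩ := ht p hp.2
    exact ⟨max n m, fun q hq => ⟨hn (NB_mono (le_max_left _ _) hq),
      hm (NB_mono (le_max_right _ _) hq)⟩⟩
  isOpen_sUnion := by
    intro s hs p hp
    obtain ⟨t, ht, hpt⟩ := hp
    obtain ⟨n, hn⟩ := hs t ht p hpt
    exact ⟨n, fun q hq => ⟨t, ht, hn hq⟩⟩

section
variable {K : Type u}

theorem isOpen_XP (U : Set (XP K)) : IsOpen U ↔ ∀ p ∈ U, ∃ n, NB p n ⊆ U := Iff.rfl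

/-- points can be separated by basic neighbourhoods -/
theorem NB_avoid {p q : XP K} (h : p ≠ q) : ∃ m, p ∉ NB q m := by
  by_cases h1 : p.1 = q.1
  · refine ⟨0, ?_⟩
    rintro (h2 | h2)
    · exact h h2
    · exact h2.2.1 h1
  · obtain ⟨i, hi⟩ := Function.ne_iff.1 h1
    refine ⟨i + 1, ?_⟩
    rintro (h2 | h2)
    · exact h h2
    · exact hi (h2.2.2 i (Nat.lt_succ_self i))

theorem isOpen_NB (p : XP K) (n : ℕ) : IsOpen (NB p n) := by
  rw [isOpen_XP]
  rintro q (rfl | ⟨h1, h2, h3⟩)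
  · exact ⟨n, Subset.rfl⟩
  · obtain ⟨i, hi⟩ := Function.ne_iff.1 h2
    refine ⟨max n (i + 1), fun r hr => Or.inr ⟨h1, ?_, ?_⟩⟩
    · intro h4
      have h5 := NB_agree hr i (lt_of_lt_of_le (Nat.lt_succ_self i) (le_max_right _ _))
      rw [h4] at h5
      exact hi h5.symm
    · intro j hj
      rw [NB_agree hr j (lt_of_lt_of_le hj (le_max_left _ _)), h3 j hj]

theorem isClosed_NB (p : XP K) (n : ℕ) : IsClosed (NB p n) := by
  rw [← isOpen_compl_iff, isOpen_XP]
  intro q hq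
  have hqp : q ≠ p := fun h => hq (Or.inl h)
  obtain ⟨m, hm⟩ := NB_avoid (Ne.symm hqp)
  exact ⟨m, fun r hr hr' => NB_disj hm hq hr' hr⟩

theorem isOpen_iso (x : ℕ → K) : IsOpen ({⟨x, true⟩} : Set (XP K)) := by
  rw [isOpen_XP]
  rintro q hq
  obtain rfl : q = ⟨x, true⟩ := hq
  exact ⟨0, fun r hr => NB_true rfl hr⟩

theorem t2_XP : T2Space (XP K) := by
  constructor
  intro x y hxy
  obtain ⟨m, hm⟩ := NB_avoid hxy
  obtain ⟨n, hn⟩ := NB_avoid hxy.symm
  refine ⟨NB x n, NB y m, isOpen_NB x n, isOpen_NB y m, NB_self x n, NB_self y m, ?_⟩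
  rw [disjoint_left]
  intro z h1 h2
  exact NB_disj hm hn h1 h2

/-- sets depending only on finitely many coordinates are open -/
theorem isOpen_cyl (x : ℕ → K) (n : ℕ) : IsOpen {q : XP K | ∀ i < n, q.1 i = x i} := by
  rw [isOpen_XP]
  intro q hq
  exact ⟨n, fun r hr i hi => (NB_agree hr i hi).trans (hq i hi)⟩

theorem paracompact_XP : ParacompactSpace (XP K) := by
  classical
  constructor
  intro α s hs hcov
  have hx : ∀ x : XP K, ∃ a, x ∈ s a := by
    intro x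
    have : x ∈ ⋃ a, s a := by rw [hcov]; trivial
    exact mem_iUnion.1 this
  choose al hal using hx
  -- good lengths
  let G : (ℕ → K) → ℕ → Prop := fun x n =>
    ∃ y : ℕ → K, (∀ i < n, y i = x i) ∧ ∃ a, NB ⟨y, false⟩ n ⊆ s a
  have hG : ∀ x, ∃ n, G x n := by
    intro x
    obtain ⟨n, hn⟩ := hs (al ⟨x, false⟩) ⟨x, false⟩ (hal _)
    exact ⟨n, x, fun _ _ => rfl, al ⟨x, false⟩, hn⟩
  let g : (ℕ → K) → ℕ := fun x => Nat.find (hG x)
  have hg : ∀ x, G x (g x) := fun x => Nat.find_spec (hG x)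
  have hg' : ∀ x n, G x n → g x ≤ n := fun x n h => Nat.find_min' (hG x) h
  have hgle : ∀ x x' : ℕ → K, (∀ i < g x, x' i = x i) → g x' ≤ g x := by
    intro x x' h
    apply hg'
    obtain ⟨y, hy, h'⟩ := hg x
    exact ⟨y, fun i hi => (hy i hi).trans (h i hi).symm, h'⟩
  have hgeq : ∀ x x' : ℕ → K, (∀ i < g x, x' i = x i) → g x' = g x := by
    intro x x' h
    have h1 := hgle x x' h
    exact le_antisymm h1 (hgle x' x fun i hi => (h i (lt_of_lt_of_le hi h1)).symm)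
  let D : (ℕ → K) → Set (ℕ → K) := fun x => {x' | ∀ i < g x, x' i = x i}
  have hDD : ∀ x x' : ℕ → K, x' ∈ D x → D x' = D x := by
    intro x x' h
    have h1 := hgeq x x' h
    ext z
    constructor
    · intro hz i hi
      exact (hz i (by rw [h1]; exact hi)).trans (h i hi)
    · intro hz i hi
      rw [h1] at hi
      exact (hz i hi).trans (h i hi).symm
  have hP : ∀ E : range D, ∃ (n : ℕ) (y : ℕ → K) (a : α), E.1 = {x' | ∀ i < n, x' i = y i} ∧
      NB ⟨y, false⟩ n ⊆ s a := by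
    rintro ⟨E, x, rfl⟩
    obtain ⟨y, hy, a, ha⟩ := hg x
    refine ⟨g x, y, a, ?_, ha⟩
    ext z
    constructor
    · exact fun hz i hi => (hz i hi).trans (hy i hi).symm
    · exact fun hz i hi => (hz i hi).trans (hy i hi)
  choose nn yy aa hE hNB using hP
  have hself : ∀ x, x ∈ D x := fun x i _ => rfl
  refine ⟨range D × Bool, fun p => NB ⟨yy p.1, p.2⟩ (nn p.1), ?_, ?_, ?_, ?_⟩
  · rintro ⟨E, b⟩
    exact isOpen_NB _ _
  · refine eq_univ_of_forall ?_
    rintro ⟨x, b⟩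
    let E : range D := ⟨D x, x, rfl⟩
    have h1 : x ∈ E.1 := hself x
    rw [hE E] at h1
    by_cases hxy : x = yy E
    · refine mem_iUnion.2 ⟨(E, b), ?_⟩
      exact Or.inl (XP.ext hxy rfl)
    · refine mem_iUnion.2 ⟨(E, false), ?_⟩
      exact Or.inr ⟨rfl, hxy, h1⟩
  · rintro ⟨x, b⟩
    refine ⟨{q : XP K | ∀ i < g x, q.1 i = x i}, (isOpen_cyl x (g x)).mem_nhds
      (fun i _ => rfl), ?_⟩
    refine (Set.toFinite {((⟨D x, x, rfl⟩ : range D), false),
      ((⟨D x, x, rfl⟩ : range D), true)}).subset ?_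
    rintro ⟨E, b'⟩ ⟨q, hq1, hq2⟩
    have h1 : ∀ i < nn E, q.1 i = yy E i := NB_agree hq1
    have h2 : q.1 ∈ E.1 := by rw [hE E]; exact h1
    have h3 : q.1 ∈ D x := hq2
    have h4 : E = ⟨D x, x, rfl⟩ := by
      obtain ⟨E, x', rfl⟩ := E
      apply Subtype.ext
      show D x' = D x
      rw [← hDD _ _ h2, ← hDD _ _ h3]
    subst h4
    rcases b' with _ | _
    · exact Or.inl rfl
    · exact Or.inr rfl
  · rintro ⟨E, b⟩
    rcases b with _ | _
    · exact ⟨aa E, hNB E⟩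
    · refine ⟨al ⟨yy E, true⟩, ?_⟩
      intro q hq
      have h1 : q = ⟨yy E, true⟩ := NB_true rfl hq
      rw [h1]
      exact hal _

/-- the projection of the duplicate onto `K^ω` is perfect -/
theorem proper_proj [TopologicalSpace K] [DiscreteTopology K] :
    IsProperMap (XP.pt : XP K → (ℕ → K)) := by
  rw [isProperMap_iff_isClosedMap_and_compact_fibers]
  refine ⟨?_, ?_, ?_⟩
  · rw [(PiNat.isTopologicalBasis_cylinders (fun _ => K)).continuous_iff]
    rintro _ ⟨x, n, rfl⟩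
    have h1 : (XP.pt : XP K → (ℕ → K)) ⁻¹' PiNat.cylinder x n =
        {q : XP K | ∀ i < n, q.1 i = x i} := by
      ext q
      exact PiNat.mem_cylinder_iff
    rw [h1]
    exact isOpen_cyl x n
  · intro C hC
    rw [← isOpen_compl_iff, (PiNat.isTopologicalBasis_cylinders (fun _ => K)).isOpen_iff]
    intro x hx
    have h1 : (⟨x, false⟩ : XP K) ∈ Cᶜ := fun h => hx ⟨_, h, rfl⟩
    have h2 : (⟨x, true⟩ : XP K) ∈ Cᶜ := fun h => hx ⟨_, h, rfl⟩
    obtain ⟨n, hn⟩ := (isOpen_XP _).1 hC.isOpen_compl _ h1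
    refine ⟨PiNat.cylinder x n, ⟨x, n, rfl⟩, PiNat.self_mem_cylinder x n, ?_⟩
    rintro y hy ⟨⟨y', b⟩, hyC, rfl⟩
    have hy' : y' ∈ PiNat.cylinder x n := hy
    rw [PiNat.mem_cylinder_iff] at hy'
    by_cases hxy : y' = x
    · subst hxy
      rcases b with _ | _
      · exact h1 hyC
      · exact h2 hyC
    · exact hn (Or.inr ⟨rfl, hxy, hy'⟩) hyC
  · intro x
    refine Set.Finite.isCompact ((Set.toFinite ({⟨x, false⟩, ⟨x, true⟩} : Set (XP K))).subset ?_)
    rintro ⟨y, b⟩ hy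
    have hy' : y = x := hy
    subst hy'
    rcases b with _ | _
    · exact Or.inl rfl
    · exact Or.inr rfl

theorem surjective_proj : Function.Surjective (XP.pt : XP K → (ℕ → K)) := fun x =>
  ⟨⟨x, false⟩, rfl⟩

end

end Pool.Agent.Lib.MP_8829b8_gt.PSp
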