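import Pool.Agent.Lib.MP_8829b8_gt.PSpaces
import Pool.Agent.Lib.MP_8829b8_gt.Final

set_option autoImplicit false

open Set Cardinal Topology

universe u

namespace Pool.Agent.Lib.MP_8829b8_gt.PSp

/-- a Baire category type lemma: for every `k` there are an `x` and a length `t` such that every
one-step extension of `x|t` contains a point with `k ≤ t` -/
theorem exists_dense {K : Type u} [Nonempty K] (k : (ℕ → K) → ℕ) :
    ∃ (x : ℕ → K) (t : ℕ), ∀ ν, ∃ a : ℕ → K, (∀ i < t, a i = x i) ∧ a t = ν ∧ k a ≤ t := by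
  classical
  by_contra hcon
  push Not at hcon
  choose F hF using hcon
  let b : ℕ → (ℕ → K) := fun t => Nat.rec (fun _ => Classical.arbitrary K)
    (fun t p => Function.update p t (F p t)) t
  have hb : ∀ t, b (t + 1) = Function.update (b t) t (F (b t) t) := fun t => rfl
  have h1 : ∀ t i, i < t → b t i = b (i + 1) i := by
    intro t
    induction t with
    | zero => intro i hi; omega
    | succ t ih =>
      intro i hi
      rcases Nat.lt_succ_iff_lt_or_eq.1 hi with h | h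
      · rw [hb t, Function.update_of_ne (by omega)]
        exact ih i h
      · subst h; rfl
  let a : ℕ → K := fun i => b (i + 1) i
  have h2 : ∀ t, t < k a := by
    intro t
    refine hF (b t) t a (fun i hi => (h1 t i hi).symm) ?_
    show b (t + 1) t = F (b t) t
    rw [hb, Function.update_self]
  exact absurd (h2 (k a)) (lt_irrefl _)

section
variable {K : Type u} [LinearOrder K]

instance infinite_Code [Nonempty K] : Infinite (Code K) := by
  classical
  have : Nonempty (XP K) := ⟨⟨fun _ => Classical.arbitrary K, false⟩⟩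
  have h1 : Infinite (Asg K) := by
    apply Infinite.of_injective (fun n : ℕ => (fun _ _ => (none, n) : Asg K))
    intro n m h
    have h2 := congrFun (congrFun h (Classical.arbitrary (XP K))) (fun _ => Classical.arbitrary K)
    exact (Prod.mk.inj h2).2
  exact Prod.infinite_of_left

theorem VV_avoid [Nonempty K] (t : ℕ) (a : ℕ → K) (i : II K) : ∃ r, i ∉ VV t a r := by
  classical
  obtain ⟨c, hc⟩ := Infinite.exists_notMem_finset (i.1.2 ∪ i.2.2)
  refine ⟨{c}, fun h => hc ?_⟩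
  rcases h.2 with h' | h'
  · exact Finset.mem_union_left _ (h'.2 (Finset.mem_singleton_self c))
  · exact Finset.mem_union_right _ (h'.2 (Finset.mem_singleton_self c))

theorem t1_TP [Nonempty K] (t : ℕ) : T1Space (TP K t) := by
  constructor
  intro s
  rw [← isOpen_compl_iff, isOpen_TP]
  intro a ha
  rcases s with b | i
  · exact ⟨∅, fun i _ h => by cases h⟩
  · obtain ⟨r, hr⟩ := VV_avoid t a i
    refine ⟨r, fun i' hi' h => ?_⟩
    obtain rfl := TP.iso.inj h
    exact hr hi'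

theorem t1_ZP [Nonempty K] : T1Space (ZP K) := by
  constructor
  intro s
  rw [← isOpen_compl_iff, isOpen_ZP]
  intro a ha t
  rcases s with b | ⟨t', i⟩
  · exact ⟨∅, fun i _ h => by cases h⟩
  · obtain ⟨r, hr⟩ := VV_avoid t a i
    refine ⟨r, fun i' hi' h => ?_⟩
    obtain ⟨rfl, rfl⟩ := ZP.iso.inj h
    exact hr hi'

/-- `X × Z` is not normal. -/
theorem not_normal_prod {B : Type u} [WellFoundedLT K] [LinearOrder B] [WellFoundedLT B]
    [Nonempty K] (h1 : ∀ x : K, #(Iic x) ≤ 𝔠) (h2 : 𝔠 < #K)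
    (hB1 : ∀ x : B, #(Iic x) ≤ ℵ₀) (hB2 : ℵ₀ < #B) (hB3 : #B ≤ 𝔠) :
    ¬ NormalSpace (XP K × ZP K) := by
  classical
  intro hNor
  have := t1_ZP (K := K)
  have := t2_XP (K := K)
  let H : Set (XP K × ZP K) := {p | p.1.2 = false ∧ ∃ a, p.2 = ZP.pt a}
  let L : Set (XP K × ZP K) := {p | ∃ a : ℕ → K, p.1 = ⟨a, true⟩ ∧ p.2 = ZP.pt a}
  have hH : IsClosed H := by
    have g1 : IsClosed {x : XP K | x.2 = false} := by
      rw [← isOpen_compl_iff, isOpen_XP]
      rintro ⟨x, b⟩ hx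
      have hb : b = true := by
        rcases b with _ | _
        · exact absurd rfl hx
        · rfl
      subst hb
      refine ⟨0, fun q hq => ?_⟩
      rw [NB_true rfl hq]
      exact hx
    have g2 : IsClosed {s : ZP K | ∃ a, s = ZP.pt a} := by
      rw [← isOpen_compl_iff, isOpen_ZP]
      intro a ha
      exact absurd ⟨a, rfl⟩ ha
    exact (g1.preimage continuous_fst).inter (g2.preimage continuous_snd)
  have hL : IsClosed L := by
    rw [← isOpen_compl_iff, isOpen_prod_iff]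
    rintro ⟨x, b⟩ s hs
    rcases s with a | ⟨t, i⟩
    · -- a nbhd of the first coordinate avoiding the isolated copy of `a`
      have hne : (⟨a, true⟩ : XP K) ≠ ⟨x, b⟩ := by
        intro h
        exact hs ⟨a, h.symm, rfl⟩
      obtain ⟨m, hm⟩ := NB_avoid hne
      refine ⟨NB ⟨x, b⟩ m, {s | s = ZP.pt a ∨ ∃ t i, s = ZP.iso t i}, isOpen_NB _ _, ?_,
        NB_self _ _, Or.inl rfl, ?_⟩
      · rw [isOpen_ZP]
        intro a' _ t
        exact ⟨∅, fun i _ => Or.inr ⟨t, i, rfl⟩⟩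
      · rintro ⟨y, s⟩ ⟨hy, hs'⟩ ⟨c, h3, h4⟩
        dsimp only at hy hs' h3 h4
        subst h3 h4
        rcases hs' with h | ⟨_, _, h⟩
        · obtain rfl := ZP.pt.inj h
          exact hm hy
        · cases h
    · refine ⟨univ, {s | ∃ t i, s = ZP.iso t i}, isOpen_univ, ?_, trivial, ⟨_, _, rfl⟩, ?_⟩
      · rw [isOpen_ZP]
        rintro a ⟨_, _, h⟩
        cases h
      · rintro ⟨y, s⟩ ⟨-, ⟨_, _, rfl⟩⟩ ⟨c, -, h4⟩
        cases h4
  have hdis : Disjoint H L := by
    rw [disjoint_left]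
    rintro ⟨x, s⟩ ⟨h3, -⟩ ⟨a, h4, -⟩
    dsimp only at h3 h4
    rw [h4] at h3
    cases h3
  obtain ⟨U1, U2, hU1, hU2, hHU, hLU, hUU⟩ := normal_separation hH hL hdis
  have step1 : ∀ a : ℕ → K, ∃ (k : ℕ) (Q : Set (ZP K)), IsOpen Q ∧ ZP.pt a ∈ Q ∧
      ∀ y ∈ NB (⟨a, false⟩ : XP K) k, ∀ s ∈ Q, (y, s) ∈ U1 := by
    intro a
    obtain ⟨u, v, hu, hv, g1, g2, huv⟩ := isOpen_prod_iff.1 hU1 (⟨a, false⟩ : XP K) (ZP.pt a)
      (hHU ⟨rfl, a, rfl⟩)
    obtain ⟨k, hk⟩ := (isOpen_XP _).1 hu _ g1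
    exact ⟨k, v, hv, g2, fun y hy s hs => huv (mk_mem_prod (hk hy) hs)⟩
  choose k Q hQ hQa hQU using step1
  have step2 : ∀ a : ℕ → K, ∃ (Q : Set (ZP K)), IsOpen Q ∧ ZP.pt a ∈ Q ∧
      ∀ s ∈ Q, ((⟨a, true⟩ : XP K), s) ∈ U2 := by
    intro a
    obtain ⟨u, v, hu, hv, g1, g2, huv⟩ := isOpen_prod_iff.1 hU2 (⟨a, true⟩ : XP K) (ZP.pt a)
      (hLU ⟨a, rfl, rfl⟩)
    exact ⟨v, hv, g2, fun s hs => huv (mk_mem_prod g1 hs)⟩
  choose Q' hQ' hQa' hQU' using step2
  obtain ⟨x, t, hxt⟩ := exists_dense k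
  choose m hm1 hm2 hm3 using hxt
  have h3 : ∀ ν, ∃ r, ∀ i ∈ VV t (m ν) r, ZP.iso t i ∈ Q (m ν) :=
    fun ν => (isOpen_ZP _).1 (hQ (m ν)) _ (hQa _) t
  choose r hr using h3
  have h4 : ∀ ν, ∃ r, ∀ i ∈ VV t (m ν) r, ZP.iso t i ∈ Q' (m ν) :=
    fun ν => (isOpen_ZP _).1 (hQ' (m ν)) _ (hQa' _) t
  choose r' hr' using h4
  obtain ⟨ν, δ, hνδ, hno⟩ := core h1 h2 hB1 hB2 hB3 t m hm2 (fun ν => r ν ∪ r' ν)
  have hne : m ν ≠ m δ := by
    intro h
    have := congrFun h t
    rw [hm2, hm2] at this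
    exact hνδ.ne this
  let i : II K := ((m ν, r ν ∪ r' ν), (m δ, r δ ∪ r' δ))
  have hNC : NC t i := ⟨hne, hno⟩
  have hi1 : i ∈ VV t (m ν) (r ν) := ⟨hNC, Or.inl ⟨rfl, Finset.subset_union_left⟩⟩
  have hi2 : i ∈ VV t (m δ) (r' δ) := ⟨hNC, Or.inr ⟨rfl, Finset.subset_union_right⟩⟩
  have g5 : (⟨m δ, true⟩ : XP K) ∈ NB (⟨m ν, false⟩ : XP K) (k (m ν)) := by
    refine Or.inr ⟨rfl, hne.symm, fun j hj => ?_⟩
    have hj' : j < t := lt_of_lt_of_le hj (hm3 ν)
    exact (hm1 δ j hj').trans (hm1 ν j hj').symm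
  have g6 := hQU (m ν) _ g5 _ (hr ν i hi1)
  have g7 := hQU' (m δ) _ (hr' δ i hi2)
  exact disjoint_left.1 hUU g6 g7

end

theorem fiber_ncard {K : Type u} (m : ℕ → K) : ((XP.pt : XP K → (ℕ → K)) ⁻¹' {m}).ncard = 2 := by
  have h1 : (XP.pt : XP K → (ℕ → K)) ⁻¹' {m} = {⟨m, false⟩, ⟨m, true⟩} := by
    ext ⟨y, b⟩
    constructor
    · intro hy
      obtain rfl : y = m := hy
      rcases b with _ | _
      · exact Or.inl rfl
      · exact Or.inr rfl
    · rintro (h | h)
      · exact congrArg XP.pt h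
      · exact congrArg XP.pt h
  rw [h1]
  exact Set.ncard_pair (by intro h; cases congrArg XP.iso h)

theorem exists_counterexample : ∃ (X Y Z M : Type u) (_ : TopologicalSpace X)
    (_ : TopologicalSpace Y) (_ : TopologicalSpace Z) (_ : TopologicalSpace M)
    (p : X → M) (f : Y → Z),
    T2Space X ∧ ParacompactSpace X ∧ TopologicalSpace.MetrizableSpace M ∧
    Continuous p ∧ IsClosedMap p ∧ Function.Surjective p ∧
    (∀ m, IsCompact (p ⁻¹' {m}) ∧ (p ⁻¹' {m}).ncard = 2) ∧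
    T4Space Y ∧ T4Space Z ∧ NormalSpace (X × Y) ∧
    Continuous f ∧ IsClosedMap f ∧ Function.Surjective f ∧ ¬ NormalSpace (X × Z) := by
  classical
  let K : Type u := (Order.succ 𝔠 : Cardinal.{u}).ord.ToType
  let B : Type u := (Order.succ ℵ₀ : Cardinal.{u}).ord.ToType
  have hKc : #K = Order.succ 𝔠 := Cardinal.mk_ord_toType _
  have hBc : #B = Order.succ ℵ₀ := Cardinal.mk_ord_toType _
  have hins : ∀ {C : Type u} [LinearOrder C] (x : C), #(Iic x) ≤ #(Iio x) + 1 := by
    intro C _ x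
    have h : Iic x = insert x (Iio x) := by
      ext y; simp [le_iff_eq_or_lt]
    rw [h]
    exact Cardinal.mk_insert_le
  have hK : ∀ x : K, #(Iic x) ≤ 𝔠 := by
    intro x
    have h1 : #(Iio x) < Order.succ 𝔠 := by
      have := Cardinal.mk_Iio_lt (α := K) x (by rw [hKc]; exact (Ordinal.type_toType _).symm)
      rwa [hKc] at this
    have h2 : #(Iio x) ≤ 𝔠 := Order.lt_succ_iff.1 h1
    calc #(Iic x) ≤ #(Iio x) + 1 := hins x
      _ ≤ 𝔠 + 1 := by gcongr
      _ = 𝔠 := Cardinal.add_one_eq Cardinal.aleph0_le_continuum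
  have hB : ∀ x : B, #(Iic x) ≤ ℵ₀ := by
    intro x
    have h1 : #(Iio x) < Order.succ ℵ₀ := by
      have := Cardinal.mk_Iio_lt (α := B) x (by rw [hBc]; exact (Ordinal.type_toType _).symm)
      rwa [hBc] at this
    have h2 : #(Iio x) ≤ ℵ₀ := Order.lt_succ_iff.1 h1
    calc #(Iic x) ≤ #(Iio x) + 1 := hins x
      _ ≤ ℵ₀ + 1 := by gcongr
      _ = ℵ₀ := Cardinal.add_one_eq le_rfl
  have hK2 : 𝔠 < #K := by rw [hKc]; exact Order.lt_succ _
  have hB2 : ℵ₀ < #B := by rw [hBc]; exact Order.lt_succ _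
  have hB3 : #B ≤ 𝔠 := by
    rw [hBc]
    exact Order.succ_le_of_lt Cardinal.aleph0_lt_continuum
  have : Nonempty K := by
    rw [← Cardinal.mk_ne_zero_iff]
    exact (zero_le.trans_lt hK2).ne'
  let _ : TopologicalSpace K := ⊥
  have : DiscreteTopology K := ⟨rfl⟩
  have hXY : NormalSpace (XP K × YP K) := by
    have h0 : ∀ t : ℕ, NormalSpace (TP K t × XP K) := by
      intro t
      have := normal_prod (K := K) t
      exact (Homeomorph.prodComm (XP K) (TP K t)).normalSpace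
    have : NormalSpace (Σ t : ℕ, TP K t × XP K) := normal_sigma h0
    have e1 : (XP K × YP K) ≃ₜ (Σ t : ℕ, TP K t × XP K) :=
      (Homeomorph.prodComm _ _).trans Homeomorph.sigmaProdDistrib
    exact e1.symm.normalSpace
  have : T2Space (XP K) := t2_XP
  have hTn : ∀ t : ℕ, NormalSpace (TP K t) := by
    intro t
    have := normal_prod (K := K) t
    let x0 : XP K := ⟨fun _ => Classical.arbitrary K, false⟩
    have h1 : IsClosedEmbedding (Prod.mk x0 : TP K t → XP K × TP K t) := by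
      refine ⟨isEmbedding_prodMkRight x0, ?_⟩
      have h2 : Set.range (Prod.mk x0 : TP K t → XP K × TP K t) = Prod.fst ⁻¹' {x0} := by
        ext ⟨x, s⟩
        constructor
        · rintro ⟨s', hs'⟩
          exact (Prod.mk.inj hs').1.symm
        · intro h
          exact ⟨s, Prod.ext h.symm rfl⟩
      rw [h2]
      exact isClosed_singleton.preimage continuous_fst
    exact h1.normalSpace
  have : ∀ t : ℕ, T1Space (TP K t) := fun t => t1_TP t
  have : T1Space (ZP K) := t1_ZP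
  have : NormalSpace (YP K) := normal_sigma hTn
  have : NormalSpace (ZP K) :=
    normal_closed_image fmap continuous_fmap isClosedMap_fmap surjective_fmap
  have : T1Space (YP K) := by
    constructor
    rintro ⟨t, s⟩
    have h1 : ({⟨t, s⟩} : Set (YP K)) = Sigma.mk t '' {s} := by simp
    rw [h1]
    exact isClosedMap_sigmaMk _ isClosed_singleton
  have hp : IsProperMap (XP.pt : XP K → (ℕ → K)) := proper_proj
  exact ⟨XP K, YP K, ZP K, ℕ → K, inferInstance, inferInstance, inferInstance, inferInstance,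
    XP.pt, fmap, inferInstance, paracompact_XP, inferInstance, hp.continuous, hp.isClosedMap,
    surjective_proj, fun m => ⟨hp.isCompact_preimage isCompact_singleton, fiber_ncard m⟩,
    inferInstance, inferInstance, hXY, continuous_fmap, isClosedMap_fmap, surjective_fmap,
    not_normal_prod hK hK2 hB hB2 hB3⟩

end Pool.Agent.Lib.MP_8829b8_gt.PSp
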