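import Mathlib

set_option autoImplicit false

open Set Cardinal

universe u

namespace Pool.Agent.Lib.MP_8829b8_gt.PSp

/-- families of size at most `c` are strictly bounded in a linear order all of whose initial
segments are of size at most `c`, if the order itself is larger -/
theorem exists_bound {K ι : Type u} [LinearOrder K] {c : Cardinal.{u}} (hc : ℵ₀ ≤ c)
    (h1 : ∀ x : K, #(Iic x) ≤ c) (h2 : c < #K) (v : ι → K) (hι : #ι ≤ c) :
    ∃ z, ∀ i, v i < z := by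
  by_contra hcon
  push Not at hcon
  have h3 : (univ : Set K) = ⋃ i, Iic (v i) := by
    ext x
    simp only [mem_univ, mem_iUnion, mem_Iic, true_iff]
    exact hcon x
  have h4 : #K ≤ c := by
    rw [← Cardinal.mk_univ, h3]
    refine (Cardinal.mk_iUnion_le _).trans ?_
    have h5 : (⨆ i, #(Iic (v i))) ≤ c := ciSup_le' fun i => h1 _
    calc #ι * ⨆ i, #(Iic (v i)) ≤ c * c := mul_le_mul' hι h5
      _ = c := Cardinal.mul_eq_self hc
  exact absurd h2 (not_lt.2 h4)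

/-- the same for sets -/
theorem exists_bound_set {K : Type u} [LinearOrder K] {c : Cardinal.{u}} (hc : ℵ₀ ≤ c)
    (h1 : ∀ x : K, #(Iic x) ≤ c) (h2 : c < #K) (s : Set K) (hs : #s ≤ c) :
    ∃ z, ∀ x ∈ s, x < z := by
  obtain ⟨z, hz⟩ := exists_bound hc h1 h2 (fun x : s => x.1) hs
  exact ⟨z, fun x hx => hz ⟨x, hx⟩⟩

theorem reflect {K B W : Type u} [LinearOrder K] [WellFoundedLT K] [LinearOrder B]
    [WellFoundedLT B]
    {c : Cardinal.{u}} (hc : ℵ₀ ≤ c) (h1 : ∀ x : K, #(Iic x) ≤ c) (h2 : c < #K)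
    (hB1 : ∀ x : B, #(Iic x) ≤ ℵ₀) (hB2 : ℵ₀ < #B) (hB3 : #B ≤ c)
    (E : K → K → Set W) (hE : ∀ γ, #(range (E γ)) ≤ c) (h : K → K) :
    ∃ δ : K, (∀ s : Set K, s.Countable → (∀ x ∈ s, x < δ) → ∃ γ < δ, ∀ x ∈ s, x < γ) ∧
      (∀ ν < δ, h ν < δ) ∧ ∀ γ < δ, ∃ ν < δ, E γ ν = E γ δ := by
  classical
  -- the closing-off function
  have hg : ∀ γ : K, ∃ z : K, ∀ ν, ∃ ν' < z, E γ ν' = E γ ν := by
    intro γ
    have h3 : ∀ w : range (E γ), ∃ ν, E γ ν = w.1 := fun w => w.2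
    choose p hp using h3
    obtain ⟨z, hz⟩ := exists_bound hc h1 h2 p (hE γ)
    exact ⟨z, fun ν => ⟨p ⟨E γ ν, ν, rfl⟩, hz _, hp _⟩⟩
  choose g hg using hg
  have hG : ∀ γ : K, ∃ z : K, ∀ γ' : Iic γ, max γ'.1 (max (g γ'.1) (h γ'.1)) < z := fun γ =>
    exists_bound hc h1 h2 (fun γ' : Iic γ => max γ'.1 (max (g γ'.1) (h γ'.1))) (h1 γ)
  choose G hG using hG
  -- the sequence of length omega_1
  have hstep : ∀ (b : B) (ih : ∀ b' : B, b' < b → K), ∃ z : K, ∀ (b' : B) (hb : b' < b),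
      G (ih b' hb) < z := by
    intro b ih
    have h4 : #(Iio b) ≤ c := (Cardinal.mk_le_mk_of_subset Iio_subset_Iic_self).trans
      ((hB1 b).trans hc)
    obtain ⟨z, hz⟩ := exists_bound hc h1 h2 (fun b' : Iio b => G (ih b'.1 b'.2)) h4
    exact ⟨z, fun b' hb => hz ⟨b', hb⟩⟩
  let d : B → K := WellFounded.fix (wellFounded_lt (α := B)) (fun b ih => Classical.choose (hstep b ih))
  have hd : ∀ b b' : B, b' < b → G (d b') < d b := by
    intro b b' hb
    have h5 : d b = Classical.choose (hstep b (fun b' _ => d b')) :=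
      WellFounded.fix_eq (wellFounded_lt (α := B)) _ b
    rw [h5]
    exact Classical.choose_spec (hstep b (fun b' _ => d b')) b' hb
  have hlt : ∀ γ, γ < G γ := fun γ => lt_of_le_of_lt (le_max_left _ _) (hG γ ⟨γ, le_rfl⟩)
  have hdm : ∀ b b' : B, b' < b → d b' < d b := fun b b' hb => (hlt _).trans (hd b b' hb)
  -- its supremum
  obtain ⟨z0, hz0⟩ := exists_bound hc h1 h2 d hB3
  have hne : ({z | ∀ b, d b ≤ z} : Set K).Nonempty := ⟨z0, fun b => (hz0 b).le⟩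
  set δ : K := WellFounded.min (wellFounded_lt (α := K)) {z | ∀ b, d b ≤ z} hne with hδ
  have hδ1 : ∀ b, d b ≤ δ := WellFounded.min_mem (wellFounded_lt (α := K)) _ hne
  have hδ2 : ∀ x, x < δ → ∃ b, x < d b := by
    intro x hx
    by_contra hcon
    push Not at hcon
    exact WellFounded.not_lt_min (wellFounded_lt (α := K)) (x := x) (s := {z | ∀ b, d b ≤ z}) hcon hx
  have hBb : ∀ s : Set B, s.Countable → ∃ z, ∀ x ∈ s, x < z := by
    intro s hs
    exact exists_bound_set le_rfl hB1 hB2 s hs.le_aleph0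
  have hBs : ∀ b : B, ∃ b', b < b' := by
    intro b
    obtain ⟨z, hz⟩ := hBb {b} (countable_singleton b)
    exact ⟨z, hz b rfl⟩
  have hδ3 : ∀ b, d b < δ := by
    intro b
    obtain ⟨b', hb'⟩ := hBs b
    exact lt_of_lt_of_le (hdm _ _ hb') (hδ1 b')
  refine ⟨δ, ?_, ?_, ?_⟩
  · intro s hs hsδ
    have h6 : ∀ x : s, ∃ b, x.1 < d b := fun x => hδ2 _ (hsδ _ x.2)
    choose b hb using h6
    have h7 : (range b).Countable := by
      have := hs.to_subtype
      exact countable_range b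
    obtain ⟨z, hz⟩ := hBb _ h7
    refine ⟨d z, hδ3 z, fun x hx => ?_⟩
    exact (hb ⟨x, hx⟩).trans (hdm _ _ (hz _ ⟨⟨x, hx⟩, rfl⟩))
  · intro ν hν
    obtain ⟨b, hb⟩ := hδ2 ν hν
    obtain ⟨b', hb'⟩ := hBs b
    have h8 : h ν < G (d b) := lt_of_le_of_lt ((le_max_right _ _).trans (le_max_right _ _))
      (hG (d b) ⟨ν, hb.le⟩)
    exact h8.trans ((hd _ _ hb').trans (hδ3 b'))
  · intro γ hγ
    obtain ⟨b, hb⟩ := hδ2 γ hγ
    obtain ⟨b', hb'⟩ := hBs b
    have h8 : g γ < G (d b) := lt_of_le_of_lt ((le_max_left _ _).trans (le_max_right _ _))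
      (hG (d b) ⟨γ, hb.le⟩)
    obtain ⟨ν, hν1, hν2⟩ := hg γ δ
    exact ⟨ν, hν1.trans (h8.trans ((hd _ _ hb').trans (hδ3 b'))), hν2⟩

end Pool.Agent.Lib.MP_8829b8_gt.PSp
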