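import Pool.Agent.Lib.MP_8829b8_gt.PDup

set_option autoImplicit false

open Set Cardinal Topology

universe u

namespace Pool.Agent.Lib.MP_8829b8_gt.PSp

/-- conditions: a point of `K^ω` and a finite set of codes -/
abbrev Cond (K : Type u) : Type u := (ℕ → K) × Finset (Code K)

/-- the set of isolated points of the auxiliary spaces -/
abbrev II (K : Type u) : Type u := Cond K × Cond K

section
variable {K : Type u} [LinearOrder K]

/-- non-conflicting pairs of conditions -/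
def NC (t : ℕ) (i : II K) : Prop :=
  i.1.1 ≠ i.2.1 ∧ ∀ c ∈ i.1.2, ∀ c' ∈ i.2.2, ¬ Conf t i.1.1 c i.2.1 c'

/-- traces of basic neighbourhoods -/
def VV (t : ℕ) (a : ℕ → K) (r : Finset (Code K)) : Set (II K) :=
  {i | NC t i ∧ ((i.1.1 = a ∧ r ⊆ i.1.2) ∨ (i.2.1 = a ∧ r ⊆ i.2.2))}

theorem VV_mono (t : ℕ) (a : ℕ → K) {r r' : Finset (Code K)} (hr : r ⊆ r') :
    VV t a r' ⊆ VV t a r := by
  rintro i ⟨h1, h2⟩
  refine ⟨h1, ?_⟩
  rcases h2 with h | h
  · exact Or.inl ⟨h.1, hr.trans h.2⟩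
  · exact Or.inr ⟨h.1, hr.trans h.2⟩

theorem Conf_symm {t : ℕ} {a b : ℕ → K} {c c' : Code K} (h : Conf t a c b c') :
    Conf t b c' a c := by
  obtain ⟨φ, x⟩ := c
  obtain ⟨φ', y⟩ := c'
  obtain ⟨h1, h2, h3, h4⟩ := h
  dsimp only at h1 h2 h3 h4
  subst h1
  refine ⟨rfl, h2, opp_symm h3, ?_⟩
  rw [inter_comm]
  exact h4

/-- conflicting codes separate -/
theorem VV_sep (t : ℕ) {a b : ℕ → K} (hab : a ≠ b) {r r' : Finset (Code K)} {c c' : Code K}
    (hc : c ∈ r) (hc' : c' ∈ r') (hcc : Conf t a c b c') {i : II K}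
    (h1 : i ∈ VV t a r) (h2 : i ∈ VV t b r') : False := by
  obtain ⟨⟨hn, hc1⟩, h1⟩ := h1
  obtain ⟨-, h2⟩ := h2
  rcases h1 with h | h <;> rcases h2 with h' | h'
  · exact hab (h.1.symm.trans h'.1)
  · have := hc1 c (h.2 hc) c' (h'.2 hc')
    rw [h.1, h'.1] at this
    exact this hcc
  · have := hc1 c' (h'.2 hc') c (h.2 hc)
    rw [h.1, h'.1] at this
    exact this (Conf_symm hcc)
  · exact hab (h.1.symm.trans h'.1)

end

/-- The space `T_t`, as a set: the points of `K^ω` together with the isolated points. -/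
inductive TP (K : Type u) (t : ℕ) : Type u
  | pt (a : ℕ → K) : TP K t
  | iso (i : II K) : TP K t

/-- The space `Z`, as a set: the amalgam of all `T_t` along the common set `K^ω`. -/
inductive ZP (K : Type u) : Type u
  | pt (a : ℕ → K) : ZP K
  | iso (t : ℕ) (i : II K) : ZP K

section
variable {K : Type u} [LinearOrder K]

open Classical in
instance instTP (t : ℕ) : TopologicalSpace (TP K t) where
  IsOpen U := ∀ a : ℕ → K, TP.pt a ∈ U → ∃ r, ∀ i ∈ VV t a r, TP.iso i ∈ U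
  isOpen_univ := fun _ _ => ⟨∅, fun _ _ => trivial⟩
  isOpen_inter := by
    intro s s' hs hs' a ha
    obtain ⟨r, h⟩ := hs a ha.1
    obtain ⟨r', h'⟩ := hs' a ha.2
    exact ⟨r ∪ r', fun i hi =>
      ⟨h i (VV_mono t a Finset.subset_union_left hi),
       h' i (VV_mono t a Finset.subset_union_right hi)⟩⟩
  isOpen_sUnion := by
    intro s hs a ha
    obtain ⟨s', hs', has'⟩ := ha
    obtain ⟨r, h⟩ := hs s' hs' a has'
    exact ⟨r, fun i hi => ⟨s', hs', h i hi⟩⟩

open Classical in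
instance instZP : TopologicalSpace (ZP K) where
  IsOpen U := ∀ a : ℕ → K, ZP.pt a ∈ U → ∀ t, ∃ r, ∀ i ∈ VV t a r, ZP.iso t i ∈ U
  isOpen_univ := fun _ _ _ => ⟨∅, fun _ _ => trivial⟩
  isOpen_inter := by
    intro s s' hs hs' a ha t
    obtain ⟨r, h⟩ := hs a ha.1 t
    obtain ⟨r', h'⟩ := hs' a ha.2 t
    exact ⟨r ∪ r', fun i hi =>
      ⟨h i (VV_mono t a Finset.subset_union_left hi),
       h' i (VV_mono t a Finset.subset_union_right hi)⟩⟩
  isOpen_sUnion := by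
    intro s hs a ha t
    obtain ⟨s', hs', has'⟩ := ha
    obtain ⟨r, h⟩ := hs s' hs' a has' t
    exact ⟨r, fun i hi => ⟨s', hs', h i hi⟩⟩

theorem isOpen_TP {t : ℕ} (U : Set (TP K t)) : IsOpen U ↔
    ∀ a : ℕ → K, TP.pt a ∈ U → ∃ r, ∀ i ∈ VV t a r, TP.iso i ∈ U := Iff.rfl

theorem isOpen_ZP (U : Set (ZP K)) : IsOpen U ↔
    ∀ a : ℕ → K, ZP.pt a ∈ U → ∀ t, ∃ r, ∀ i ∈ VV t a r, ZP.iso t i ∈ U := Iff.rfl

variable (K) in
/-- the disjoint sum of the spaces `T_t` -/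
abbrev YP : Type u := Σ t : ℕ, TP K t

/-- the natural map of the disjoint sum onto the amalgam -/
def fmap : YP K → ZP K
  | ⟨_, TP.pt a⟩ => ZP.pt a
  | ⟨t, TP.iso i⟩ => ZP.iso t i

theorem continuous_fmap : Continuous (fmap : YP K → ZP K) := by
  rw [continuous_sigma_iff]
  intro t
  rw [continuous_def]
  intro U hU
  rw [isOpen_TP]
  intro a ha
  exact hU a ha t

omit [LinearOrder K] in
theorem surjective_fmap : Function.Surjective (fmap : YP K → ZP K) := by
  rintro (a | ⟨t, i⟩)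
  · exact ⟨⟨0, TP.pt a⟩, rfl⟩
  · exact ⟨⟨t, TP.iso i⟩, rfl⟩

theorem isClosedMap_fmap : IsClosedMap (fmap : YP K → ZP K) := by
  intro C hC
  rw [← isOpen_compl_iff, isOpen_ZP]
  intro a ha t
  have h1 : (⟨t, TP.pt a⟩ : YP K) ∈ Cᶜ := by
    intro h
    exact ha ⟨_, h, rfl⟩
  have h2 : IsOpen ((Sigma.mk t : TP K t → YP K) ⁻¹' Cᶜ) :=
    (isOpen_sigma_iff.1 hC.isOpen_compl) t
  obtain ⟨r, h3⟩ := h2 a h1
  refine ⟨r, fun i hi => ?_⟩
  rintro ⟨⟨t', s⟩, h4, h5⟩
  rcases s with b | i'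
  · exact absurd h5 (by simp [fmap])
  · have h6 : t' = t ∧ i' = i := by
      have : (ZP.iso t' i' : ZP K) = ZP.iso t i := h5
      simpa using this
    obtain ⟨rfl, rfl⟩ := h6
    exact h3 _ hi h4

/-- open boxes in `T_t` -/
def BT (t : ℕ) (a : ℕ → K) (r : Finset (Code K)) : Set (TP K t) :=
  {s | s = TP.pt a ∨ ∃ i ∈ VV t a r, s = TP.iso i}

theorem isOpen_BT (t : ℕ) (a : ℕ → K) (r : Finset (Code K)) : IsOpen (BT t a r) := by
  rw [isOpen_TP]
  rintro b (h | ⟨i, -, h⟩)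
  · obtain rfl := TP.pt.inj h
    exact ⟨r, fun i hi => Or.inr ⟨i, hi, rfl⟩⟩
  · cases h

theorem isOpen_iso_TP (t : ℕ) (i : II K) : IsOpen ({TP.iso i} : Set (TP K t)) := by
  rw [isOpen_TP]
  intro b h
  cases h

/-- `X × T_t` is normal. -/
theorem normal_prod (t : ℕ) : NormalSpace (XP K × TP K t) := by
  classical
  constructor
  intro H1 K1 hH hK hHK
  have : T2Space (XP K) := t2_XP
  have : ParacompactSpace (XP K) := paracompact_XP
  have : NormalSpace (XP K) := inferInstance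
  -- sections are closed
  have secs : ∀ (C : Set (XP K × TP K t)), IsClosed C → ∀ x a, (x, TP.pt a) ∉ C →
      ∃ n, ∀ y ∈ NB x n, (y, TP.pt a) ∉ C := by
    intro C hC x a h
    have h1 : IsOpen ((fun y : XP K => (y, (TP.pt a : TP K t))) ⁻¹' Cᶜ) :=
      hC.isOpen_compl.preimage (Continuous.prodMk_left _)
    obtain ⟨n, hn⟩ := (isOpen_XP _).1 h1 x h
    exact ⟨n, fun y hy => hn hy⟩
  -- labels
  let L : XP K → (ℕ → K) → Option Bool := fun x a =>
    if (x, (TP.pt a : TP K t)) ∈ H1 then some true else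
      if (x, (TP.pt a : TP K t)) ∈ K1 then some false else none
  have hLH : ∀ x a, (x, (TP.pt a : TP K t)) ∈ H1 → L x a = some true := by
    intro x a h
    exact if_pos h
  have hLK : ∀ x a, (x, (TP.pt a : TP K t)) ∈ K1 → L x a = some false := by
    intro x a h
    have h1 : (x, (TP.pt a : TP K t)) ∉ H1 := fun h' => disjoint_left.1 hHK h' h
    show (if _ then _ else _) = _
    rw [if_neg h1, if_pos h]
  have hL1 : ∀ x a, L x a = some true → (x, (TP.pt a : TP K t)) ∈ H1 := by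
    intro x a h
    by_contra h1
    change (if _ then _ else _) = _ at h
    rw [if_neg h1] at h
    split at h <;> cases h
  have hL2 : ∀ x a, L x a = some false → (x, (TP.pt a : TP K t)) ∈ K1 := by
    intro x a h
    by_contra h1
    change (if _ then _ else _) = _ at h
    rw [if_neg h1] at h
    split at h <;> cases h
  -- the natural numbers
  have hN : ∀ x a, ∃ n, ((∀ i < n, x.1 i < a t) → ∀ i, x.1 i < a t) ∧
      ∀ y, opp (L x a) (L y a) → y ∉ NB x n := by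
    intro x a
    obtain ⟨n1, hn1⟩ : ∃ n, ((∀ i < n, x.1 i < a t) → ∀ i, x.1 i < a t) := by
      by_cases h : ∀ i, x.1 i < a t
      · exact ⟨0, fun _ => h⟩
      · push Not at h
        obtain ⟨i, hi⟩ := h
        exact ⟨i + 1, fun h' => absurd (h' i (Nat.lt_succ_self i)) (not_lt.2 hi)⟩
    obtain ⟨n2, hn2⟩ : ∃ n, ∀ y, opp (L x a) (L y a) → y ∉ NB x n := by
      by_cases hx1 : (x, (TP.pt a : TP K t)) ∈ H1
      · obtain ⟨n, hn⟩ := secs K1 hK x a (fun h => disjoint_left.1 hHK hx1 h)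
        refine ⟨n, ?_⟩
        rintro y ⟨b, hb, hb'⟩ hy
        rw [hLH x a hx1] at hb
        obtain rfl := Option.some.inj hb
        exact hn y hy (hL2 _ _ hb')
      · by_cases hx2 : (x, (TP.pt a : TP K t)) ∈ K1
        · obtain ⟨n, hn⟩ := secs H1 hH x a hx1
          refine ⟨n, ?_⟩
          rintro y ⟨b, hb, hb'⟩ hy
          rw [hLK x a hx2] at hb
          obtain rfl := Option.some.inj hb
          exact hn y hy (hL1 _ _ hb')
        · refine ⟨0, ?_⟩
          rintro y ⟨b, hb, hb'⟩ hy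
          rcases b with _ | _
          · exact hx2 (hL2 _ _ hb)
          · exact hx1 (hL1 _ _ hb)
    refine ⟨max n1 n2, ?_, ?_⟩
    · intro h
      exact hn1 fun i hi => h i (lt_of_lt_of_le hi (le_max_left _ _))
    · intro y h1 h2
      exact hn2 y h1 (NB_mono (le_max_right _ _) h2)
  choose N hN1 hN2 using hN
  let φ : Asg K := fun x a => (L x a, N x a)
  have hφ : Adm t φ := ⟨fun x a => hN1 x a, fun x y a => hN2 x a y⟩
  -- boxes
  have box : ∀ (C : Set (XP K × TP K t)), IsClosed C → ∀ x a, ∃ (n : ℕ) (r : Finset (Code K)),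
      N x a ≤ n ∧ (φ, x) ∈ r ∧ ((x, (TP.pt a : TP K t)) ∉ C →
        ∀ y ∈ NB x n, ∀ i ∈ VV t a r, (y, (TP.iso i : TP K t)) ∉ C) := by
    intro C hC x a
    by_cases h : (x, (TP.pt a : TP K t)) ∈ C
    · exact ⟨N x a, {(φ, x)}, le_rfl, Finset.mem_singleton_self _, fun h' => absurd h h'⟩
    · obtain ⟨u, v, hu, hv, hpu, hpv, huv⟩ := isOpen_prod_iff.1 hC.isOpen_compl x (TP.pt a) h
      obtain ⟨n, hn⟩ := (isOpen_XP _).1 hu x hpu
      obtain ⟨r, hr⟩ := (isOpen_TP _).1 hv a hpv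
      refine ⟨max n (N x a), insert (φ, x) r, le_max_right _ _, Finset.mem_insert_self _ _,
        fun _ y hy i hi => ?_⟩
      exact huv (mk_mem_prod (hn (NB_mono (le_max_left _ _) hy))
        (hr i (VV_mono t a (Finset.subset_insert _ _) hi)))
  choose nH rH hNH hrH hbH using box K1 hK
  choose nK rK hNK hrK hbK using box H1 hH
  -- finiteness
  have hfin : ∀ (r : XP K → (ℕ → K) → Finset (Code K)), (∀ x a, (φ, x) ∈ r x a) → ∀ i : II K,
      {p : XP K × (ℕ → K) | i ∈ VV t p.2 (r p.1 p.2)}.Finite := by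
    intro r hr i
    have h1 : ((((i.1.2 ∪ i.2.2).image Prod.snd) ×ˢ ({i.1.1, i.2.1} : Finset (ℕ → K)) :
      Finset (XP K × (ℕ → K))) : Set (XP K × (ℕ → K))).Finite := Finset.finite_toSet _
    refine h1.subset ?_
    rintro ⟨x, a⟩ hi
    rw [Finset.mem_coe, Finset.mem_product]
    rcases hi.2 with h | h
    · refine ⟨Finset.mem_image.2 ⟨(φ, x), Finset.mem_union_left _ (h.2 (hr x a)), rfl⟩, ?_⟩
      dsimp only at h ⊢
      rw [← h.1]; simp
    · refine ⟨Finset.mem_image.2 ⟨(φ, x), Finset.mem_union_right _ (h.2 (hr x a)), rfl⟩, ?_⟩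
      dsimp only at h ⊢
      rw [← h.1]; simp
  -- crossing boxes are disjoint
  have cross : ∀ x a y b z, (x, (TP.pt a : TP K t)) ∈ H1 → (y, (TP.pt b : TP K t)) ∈ K1 →
      z ∈ NB x (nH x a) → z ∈ NB y (nK y b) →
      (a = b ∨ ∃ i, i ∈ VV t a (rH x a) ∧ i ∈ VV t b (rK y b)) → False := by
    intro x a y b z hx hy hzx hzy hab
    have z1 : z ∈ NB x (N x a) := NB_mono (hNH x a) hzx
    have z2 : z ∈ NB y (N y b) := NB_mono (hNK y b) hzy
    have hopp : opp (L x a) (L y b) := ⟨true, hLH x a hx, hLK y b hy⟩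
    by_cases h : a = b
    · subst h
      exact NB_disj (hN2 y a x (opp_symm hopp)) (hN2 x a y hopp) z1 z2
    · rcases hab with h' | ⟨i, hi1, hi2⟩
      · exact h h'
      · exact VV_sep t h (hrH x a) (hrK y b) ⟨rfl, hφ, hopp, z, z1, z2⟩ hi1 hi2
  -- level sets
  have hlev : ∀ i : II K, ∃ WH WK : Set (XP K), IsOpen WH ∧ IsOpen WK ∧ Disjoint WH WK ∧
      (∀ x, (x, (TP.iso i : TP K t)) ∈ H1 → x ∈ WH) ∧
      (∀ x, (x, (TP.iso i : TP K t)) ∈ K1 → x ∈ WK) ∧
      (∀ x a, (x, (TP.pt a : TP K t)) ∈ H1 → i ∈ VV t a (rH x a) → NB x (nH x a) ⊆ WH) ∧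
      (∀ x a, (x, (TP.pt a : TP K t)) ∈ K1 → i ∈ VV t a (rK x a) → NB x (nK x a) ⊆ WK) := by
    intro i
    let PH : Set (XP K × (ℕ → K)) := {p | (p.1, (TP.pt p.2 : TP K t)) ∈ H1 ∧
      i ∈ VV t p.2 (rH p.1 p.2)}
    let PK : Set (XP K × (ℕ → K)) := {p | (p.1, (TP.pt p.2 : TP K t)) ∈ K1 ∧
      i ∈ VV t p.2 (rK p.1 p.2)}
    have fH : PH.Finite := (hfin rH hrH i).subset fun p hp => hp.2
    have fK : PK.Finite := (hfin rK hrK i).subset fun p hp => hp.2
    have cH : IsClosed ({x | (x, (TP.iso i : TP K t)) ∈ H1} ∪ ⋃ p ∈ PH, NB p.1 (nH p.1 p.2)) :=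
      (hH.preimage (Continuous.prodMk_left _)).union (fH.isClosed_biUnion fun _ _ => isClosed_NB _ _)
    have cK : IsClosed ({x | (x, (TP.iso i : TP K t)) ∈ K1} ∪ ⋃ p ∈ PK, NB p.1 (nK p.1 p.2)) :=
      (hK.preimage (Continuous.prodMk_left _)).union (fK.isClosed_biUnion fun _ _ => isClosed_NB _ _)
    have hd : Disjoint ({x | (x, (TP.iso i : TP K t)) ∈ H1} ∪ ⋃ p ∈ PH, NB p.1 (nH p.1 p.2))
        ({x | (x, (TP.iso i : TP K t)) ∈ K1} ∪ ⋃ p ∈ PK, NB p.1 (nK p.1 p.2)) := by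
      rw [disjoint_left]
      rintro z (h1 | h1) (h2 | h2)
      · exact disjoint_left.1 hHK h1 h2
      · simp only [mem_iUnion] at h2
        obtain ⟨⟨x, a⟩, hp, hz⟩ := h2
        have h3 : (x, (TP.pt a : TP K t)) ∉ H1 := fun h => disjoint_left.1 hHK h hp.1
        exact hbK x a h3 z hz i hp.2 h1
      · simp only [mem_iUnion] at h1
        obtain ⟨⟨x, a⟩, hp, hz⟩ := h1
        have h3 : (x, (TP.pt a : TP K t)) ∉ K1 := fun h => disjoint_left.1 hHK hp.1 h
        exact hbH x a h3 z hz i hp.2 h2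
      · simp only [mem_iUnion] at h1 h2
        obtain ⟨⟨x, a⟩, hp, hz⟩ := h1
        obtain ⟨⟨y, b⟩, hq, hz'⟩ := h2
        exact cross x a y b z hp.1 hq.1 hz hz' (Or.inr ⟨i, hp.2, hq.2⟩)
    obtain ⟨WH, WK, oH, oK, sH, sK, dd⟩ := normal_separation cH cK hd
    refine ⟨WH, WK, oH, oK, dd, fun x hx => sH (Or.inl hx), fun x hx => sK (Or.inl hx), ?_, ?_⟩
    · intro x a h1 h2 z hz
      exact sH (Or.inr (mem_biUnion (show ((x, a) : XP K × (ℕ → K)) ∈ PH from ⟨h1, h2⟩) hz))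
    · intro x a h1 h2 z hz
      exact sK (Or.inr (mem_biUnion (show ((x, a) : XP K × (ℕ → K)) ∈ PK from ⟨h1, h2⟩) hz))
  choose WH WK oH oK dd sH sK bH bK using hlev
  refine ⟨(⋃ p ∈ {p : XP K × (ℕ → K) | (p.1, (TP.pt p.2 : TP K t)) ∈ H1},
      NB p.1 (nH p.1 p.2) ×ˢ BT t p.2 (rH p.1 p.2)) ∪ ⋃ i, WH i ×ˢ {TP.iso i},
    (⋃ p ∈ {p : XP K × (ℕ → K) | (p.1, (TP.pt p.2 : TP K t)) ∈ K1},
      NB p.1 (nK p.1 p.2) ×ˢ BT t p.2 (rK p.1 p.2)) ∪ ⋃ i, WK i ×ˢ {TP.iso i}, ?_, ?_, ?_, ?_, ?_⟩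
  · exact (isOpen_biUnion fun p _ => (isOpen_NB _ _).prod (isOpen_BT _ _ _)).union
      (isOpen_iUnion fun i => (oH i).prod (isOpen_iso_TP t i))
  · exact (isOpen_biUnion fun p _ => (isOpen_NB _ _).prod (isOpen_BT _ _ _)).union
      (isOpen_iUnion fun i => (oK i).prod (isOpen_iso_TP t i))
  · rintro ⟨x, a | i⟩ h
    · exact Or.inl (mem_biUnion (show ((x, a) : XP K × (ℕ → K)) ∈ {p : XP K × (ℕ → K) |
        (p.1, (TP.pt p.2 : TP K t)) ∈ H1} from h) (mk_mem_prod (NB_self _ _) (Or.inl rfl)))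
    · exact Or.inr (mem_iUnion.2 ⟨i, mk_mem_prod (sH i x h) rfl⟩)
  · rintro ⟨x, a | i⟩ h
    · exact Or.inl (mem_biUnion (show ((x, a) : XP K × (ℕ → K)) ∈ {p : XP K × (ℕ → K) |
        (p.1, (TP.pt p.2 : TP K t)) ∈ K1} from h) (mk_mem_prod (NB_self _ _) (Or.inl rfl)))
    · exact Or.inr (mem_iUnion.2 ⟨i, mk_mem_prod (sK i x h) rfl⟩)
  · rw [disjoint_left]
    rintro ⟨z, a | i⟩ h1 h2
    · -- level of `a`
      have g1 : ∃ x, (x, (TP.pt a : TP K t)) ∈ H1 ∧ z ∈ NB x (nH x a) := by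
        rcases h1 with h | h
        · simp only [mem_iUnion] at h
          obtain ⟨⟨x, b⟩, hp, hz, hb⟩ := h
          rcases hb with hb | ⟨i, -, hb⟩
          · obtain rfl := TP.pt.inj hb
            exact ⟨x, hp, hz⟩
          · cases hb
        · simp only [mem_iUnion] at h
          obtain ⟨i, -, hb⟩ := h
          cases hb
      have g2 : ∃ x, (x, (TP.pt a : TP K t)) ∈ K1 ∧ z ∈ NB x (nK x a) := by
        rcases h2 with h | h
        · simp only [mem_iUnion] at h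
          obtain ⟨⟨x, b⟩, hp, hz, hb⟩ := h
          rcases hb with hb | ⟨i, -, hb⟩
          · obtain rfl := TP.pt.inj hb
            exact ⟨x, hp, hz⟩
          · cases hb
        · simp only [mem_iUnion] at h
          obtain ⟨i, -, hb⟩ := h
          cases hb
      obtain ⟨x, hx, hzx⟩ := g1
      obtain ⟨y, hy, hzy⟩ := g2
      exact cross x a y a z hx hy hzx hzy (Or.inl rfl)
    · have g1 : z ∈ WH i := by
        rcases h1 with h | h
        · simp only [mem_iUnion] at h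
          obtain ⟨⟨x, b⟩, hp, hz, hb⟩ := h
          rcases hb with hb | ⟨i', hi', hb⟩
          · cases hb
          · obtain rfl := TP.iso.inj hb
            exact bH i x b hp hi' hz
        · simp only [mem_iUnion] at h
          obtain ⟨i', hz, hb⟩ := h
          obtain rfl := TP.iso.inj hb
          exact hz
      have g2 : z ∈ WK i := by
        rcases h2 with h | h
        · simp only [mem_iUnion] at h
          obtain ⟨⟨x, b⟩, hp, hz, hb⟩ := h
          rcases hb with hb | ⟨i', hi', hb⟩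
          · cases hb
          · obtain rfl := TP.iso.inj hb
            exact bK i x b hp hi' hz
        · simp only [mem_iUnion] at h
          obtain ⟨i', hz, hb⟩ := h
          obtain rfl := TP.iso.inj hb
          exact hz
      exact disjoint_left.1 (dd i) g1 g2

end

end Pool.Agent.Lib.MP_8829b8_gt.PSp
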