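import Pool.Agent.Lib.MP_8829b8_gt.Comb

set_option autoImplicit false

open Set Cardinal Topology

universe u

namespace Pool.Agent.Lib.MP_8829b8_gt

/-- The factor `X`: points of `A × B` are isolated, `none` is the only non-isolated point. -/
def XS (A B : Type u) : Type u := Option (A × B)

instance instXS (A B : Type u) [LinearOrder A] [LinearOrder B] [Nonempty A] [Nonempty B] :
    TopologicalSpace (XS A B) where
  IsOpen U := (none : Option (A × B)) ∈ U →
    ∃ (a : A) (b : B), ∀ c z, a < c → b < z → (some (c, z) : Option (A × B)) ∈ U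
  isOpen_univ := fun _ => ⟨Classical.arbitrary A, Classical.arbitrary B, fun _ _ _ _ => trivial⟩
  isOpen_inter := by
    intro s t hs ht hn
    obtain ⟨a, b, h⟩ := hs hn.1
    obtain ⟨a', b', h'⟩ := ht hn.2
    refine ⟨max a a', max b b', fun c z hc hz => ⟨h c z ?_ ?_, h' c z ?_ ?_⟩⟩
    · exact lt_of_le_of_lt (le_max_left _ _) hc
    · exact lt_of_le_of_lt (le_max_left _ _) hz
    · exact lt_of_le_of_lt (le_max_right _ _) hc
    · exact lt_of_le_of_lt (le_max_right _ _) hz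
  isOpen_sUnion := by
    intro s hs hn
    obtain ⟨t, ht, hnt⟩ := hn
    obtain ⟨a, b, h⟩ := hs t ht hnt
    exact ⟨a, b, fun c z hc hz => ⟨t, ht, h c z hc hz⟩⟩

/-- conditions -/
abbrev Cond (A B : Type u) := A × Finset (Set A) × Finset (A × B)

/-- the set of isolated points of the auxiliary spaces -/
abbrev II (A B : Type u) := Cond A B × Cond A B

section
variable {A B : Type u} [LinearOrder A] [LinearOrder B]

/-- non-conflicting pairs of conditions -/
def NC (j : A → B) (i : II A B) : Prop :=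
  i.1.1 ≠ i.2.1 ∧ (∀ S ∈ i.1.2.1, S ∈ i.2.2.1 → (i.1.1 ∈ S ↔ i.2.1 ∈ S)) ∧
    (∀ d ∈ i.1.2.2, d ∉ FF j i.2.1) ∧ (∀ d ∈ i.2.2.2, d ∉ FF j i.1.1)

/-- traces of basic neighbourhoods -/
def VV (j : A → B) (a : A) (r : Finset (Set A)) (e : Finset (A × B)) : Set (II A B) :=
  {i | NC j i ∧ ((i.1.1 = a ∧ r ⊆ i.1.2.1 ∧ e ⊆ i.1.2.2) ∨ (i.2.1 = a ∧ r ⊆ i.2.2.1 ∧ e ⊆ i.2.2.2))}

theorem VV_mono (j : A → B) (a : A) {r r' : Finset (Set A)} {e e' : Finset (A × B)}
    (hr : r ⊆ r') (he : e ⊆ e') : VV j a r' e' ⊆ VV j a r e := by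
  rintro i ⟨h1, h2⟩
  refine ⟨h1, ?_⟩
  rcases h2 with h | h
  · exact Or.inl ⟨h.1, hr.trans h.2.1, he.trans h.2.2⟩
  · exact Or.inr ⟨h.1, hr.trans h.2.1, he.trans h.2.2⟩

/-- separation by a code `S` -/
theorem VV_sep_code (j : A → B) {a b : A} {r r' : Finset (Set A)} {e e' : Finset (A × B)}
    {S : Set A} (hS : S ∈ r) (hS' : S ∈ r') (hab : ¬ (a ∈ S ↔ b ∈ S)) {i : II A B}
    (h1 : i ∈ VV j a r e) (h2 : i ∈ VV j b r' e') : False := by
  obtain ⟨⟨hn, hc, -, -⟩, h1⟩ := h1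
  obtain ⟨-, h2⟩ := h2
  have hne : a ≠ b := by
    rintro rfl; exact hab Iff.rfl
  rcases h1 with h | h <;> rcases h2 with h' | h'
  · exact hne (h.1.symm.trans h'.1)
  · have := hc S (h.2.1 hS) (h'.2.1 hS')
    rw [h.1, h'.1] at this
    exact hab this
  · have := hc S (h'.2.1 hS') (h.2.1 hS)
    rw [h.1, h'.1] at this
    exact hab this.symm
  · exact hne (h.1.symm.trans h'.1)

/-- separation by a point of `D` -/
theorem VV_sep_point (j : A → B) {a b : A} {r r' : Finset (Set A)} {e e' : Finset (A × B)}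
    {d : A × B} (hd : d ∈ FF j a) (hd' : d ∈ e') (hab : a ≠ b) {i : II A B}
    (h1 : i ∈ VV j a r e) (h2 : i ∈ VV j b r' e') : False := by
  obtain ⟨⟨hn, -, hc1, hc2⟩, h1⟩ := h1
  obtain ⟨-, h2⟩ := h2
  rcases h1 with h | h <;> rcases h2 with h' | h'
  · exact hab (h.1.symm.trans h'.1)
  · have := hc2 d (h'.2.2 hd')
    rw [h.1] at this
    exact this hd
  · have := hc1 d (h'.2.2 hd')
    rw [h.1] at this
    exact this hd
  · exact hab (h.1.symm.trans h'.1)

/-- The Bing-type space `T_j`. -/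
def TS (_j : A → B) : Type u := A ⊕ II A B

open Classical in
instance instTS (j : A → B) : TopologicalSpace (TS j) where
  IsOpen U := ∀ a : A, (Sum.inl a : A ⊕ II A B) ∈ U →
    ∃ r e, ∀ i ∈ VV j a r e, (Sum.inr i : A ⊕ II A B) ∈ U
  isOpen_univ := fun _ _ => ⟨∅, ∅, fun _ _ => trivial⟩
  isOpen_inter := by
    intro s t hs ht a ha
    obtain ⟨r, e, h⟩ := hs a ha.1
    obtain ⟨r', e', h'⟩ := ht a ha.2
    exact ⟨r ∪ r', e ∪ e', fun i hi =>
      ⟨h i (VV_mono j a Finset.subset_union_left Finset.subset_union_left hi),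
       h' i (VV_mono j a Finset.subset_union_right Finset.subset_union_right hi)⟩⟩
  isOpen_sUnion := by
    intro s hs a ha
    obtain ⟨t, ht, hat⟩ := ha
    obtain ⟨r, e, h⟩ := hs t ht a hat
    exact ⟨r, e, fun i hi => ⟨t, ht, h i hi⟩⟩

/-- The amalgam `Z` of all the spaces `T_j` along the common closed discrete set `A`. -/
def ZS (A B : Type u) : Type u := A ⊕ ((A → B) × II A B)

open Classical in
instance instZS : TopologicalSpace (ZS A B) where
  IsOpen U := ∀ a : A, (Sum.inl a : A ⊕ ((A → B) × II A B)) ∈ U → ∀ j : A → B,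
    ∃ r e, ∀ i ∈ VV j a r e, (Sum.inr (j, i) : A ⊕ ((A → B) × II A B)) ∈ U
  isOpen_univ := fun _ _ _ => ⟨∅, ∅, fun _ _ => trivial⟩
  isOpen_inter := by
    intro s t hs ht a ha j
    obtain ⟨r, e, h⟩ := hs a ha.1 j
    obtain ⟨r', e', h'⟩ := ht a ha.2 j
    exact ⟨r ∪ r', e ∪ e', fun i hi =>
      ⟨h i (VV_mono j a Finset.subset_union_left Finset.subset_union_left hi),
       h' i (VV_mono j a Finset.subset_union_right Finset.subset_union_right hi)⟩⟩
  isOpen_sUnion := by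
    intro s hs a ha j
    obtain ⟨t, ht, hat⟩ := ha
    obtain ⟨r, e, h⟩ := hs t ht a hat j
    exact ⟨r, e, fun i hi => ⟨t, ht, h i hi⟩⟩

/-- the disjoint sum of the spaces `T_j` -/
abbrev YS (A B : Type u) [LinearOrder A] [LinearOrder B] : Type u := Σ j : A → B, TS j

/-- the natural map of the disjoint sum onto the amalgam -/
def fmap : YS A B → ZS A B
  | ⟨_, Sum.inl a⟩ => Sum.inl a
  | ⟨j, Sum.inr i⟩ => Sum.inr (j, i)

theorem isOpen_TS (j : A → B) (U : Set (TS j)) : IsOpen U ↔ ∀ a : A, (Sum.inl a : A ⊕ II A B) ∈ U →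
    ∃ r e, ∀ i ∈ VV j a r e, (Sum.inr i : A ⊕ II A B) ∈ U := Iff.rfl

theorem isOpen_ZS (U : Set (ZS A B)) : IsOpen U ↔ ∀ a : A,
    (Sum.inl a : A ⊕ ((A → B) × II A B)) ∈ U → ∀ j : A → B,
    ∃ r e, ∀ i ∈ VV j a r e, (Sum.inr (j, i) : A ⊕ ((A → B) × II A B)) ∈ U := Iff.rfl

theorem continuous_fmap : Continuous (fmap : YS A B → ZS A B) := by
  rw [continuous_sigma_iff]
  intro j
  rw [continuous_def]
  intro U hU
  rw [isOpen_TS]
  intro a ha
  exact hU a ha j

theorem surjective_fmap [Nonempty B] : Function.Surjective (fmap : YS A B → ZS A B) := by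
  rintro (a | ⟨j, i⟩)
  · exact ⟨⟨fun _ => Classical.arbitrary B, Sum.inl a⟩, rfl⟩
  · exact ⟨⟨j, Sum.inr i⟩, rfl⟩

theorem isClosedMap_fmap : IsClosedMap (fmap : YS A B → ZS A B) := by
  intro C hC
  rw [← isOpen_compl_iff, isOpen_ZS]
  intro a ha j
  have h1 : (⟨j, Sum.inl a⟩ : YS A B) ∈ Cᶜ := by
    intro h
    exact ha ⟨_, h, rfl⟩
  have h2 : IsOpen ((Sigma.mk j : TS j → YS A B) ⁻¹' Cᶜ) := by
    exact (isOpen_sigma_iff.1 hC.isOpen_compl) j
  obtain ⟨r, e, h3⟩ := h2 a h1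
  refine ⟨r, e, fun i hi => ?_⟩
  rintro ⟨⟨j', t⟩, h4, h5⟩
  rcases t with b | i'
  · exact absurd h5 (by simp [fmap])
  · have h6 : j' = j ∧ i' = i := by
      have : (Sum.inr (j', i') : A ⊕ ((A → B) × II A B)) = Sum.inr (j, i) := h5
      simpa using this
    obtain ⟨rfl, rfl⟩ := h6
    exact h3 _ hi h4

end

end Pool.Agent.Lib.MP_8829b8_gt
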